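import Mathlib

/-!
Vector fields on the line, the Lie algebras `g_n`, and the basic commutator computation behind the
homomorphisms `Ψ_n`.
-/

set_option autoImplicit false

open scoped Polynomial

namespace Pool.Agent.Q113.WF

universe u

section VF

variable {R : Type u} [CommRing R] [Algebra ℂ R]

/-- The Lie algebra `R∂` of vector fields `f∂`, `f ∈ R`, for a commutative algebra `R` with a
derivation `∂ = d`. The element `f` of the type stands for `f∂`, and
`[f∂, g∂] = (f g' - f' g)∂`. -/
def VF (_d : Derivation ℂ R R) : Type u := R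

variable (d : Derivation ℂ R R)

instance : AddCommGroup (VF d) := (inferInstance : AddCommGroup R)
instance : Module ℂ (VF d) := (inferInstance : Module ℂ R)

/-- the vector field `f∂` -/
def VF.of (f : R) : VF d := f

variable {d}

/-- the coefficient of a vector field -/
def VF.coef (f : VF d) : R := f

@[simp] theorem VF.coef_of (f : R) : (VF.of d f).coef = f := rfl
@[simp] theorem VF.of_coef (f : VF d) : VF.of d f.coef = f := rfl
@[simp] theorem VF.coef_add (f g : VF d) : (f + g).coef = f.coef + g.coef := rfl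
@[simp] theorem VF.coef_sub (f g : VF d) : (f - g).coef = f.coef - g.coef := rfl
@[simp] theorem VF.coef_neg (f : VF d) : (-f).coef = -f.coef := rfl
@[simp] theorem VF.coef_zero : (0 : VF d).coef = 0 := rfl
@[simp] theorem VF.coef_smul (c : ℂ) (f : VF d) : (c • f).coef = c • f.coef := rfl

theorem VF.ext {f g : VF d} (h : f.coef = g.coef) : f = g := h

instance : Bracket (VF d) (VF d) := ⟨fun f g => VF.of d (f.coef * d g.coef - d f.coef * g.coef)⟩

@[simp] theorem VF.coef_lie (f g : VF d) :
    ⁅f, g⁆.coef = f.coef * d g.coef - d f.coef * g.coef := rfl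

instance : LieRing (VF d) where
  add_lie f g h := by apply VF.ext; simp; ring
  lie_add f g h := by apply VF.ext; simp; ring
  lie_self f := by apply VF.ext; simp; ring
  leibniz_lie f g h := by
    apply VF.ext
    simp only [VF.coef_lie, VF.coef_add, map_sub, Derivation.leibniz, smul_eq_mul]
    ring

instance : LieAlgebra ℂ (VF d) where
  lie_smul t f g := by
    apply VF.ext
    simp only [VF.coef_lie, VF.coef_smul, Derivation.map_smul, mul_smul_comm, smul_sub]

end VF

/-- The Lie algebra `W₋₁ = ℂ[t]∂`. -/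
def Wm : Type := VF (Polynomial.derivative' (R := ℂ))

noncomputable instance : LieRing Wm :=
  (inferInstance : LieRing (VF (Polynomial.derivative' (R := ℂ))))
noncomputable instance : LieAlgebra ℂ Wm :=
  (inferInstance : LieAlgebra ℂ (VF (Polynomial.derivative' (R := ℂ))))

/-- The vector field `f∂`. -/
noncomputable def Wm.of (f : ℂ[X]) : Wm := VF.of (Polynomial.derivative' (R := ℂ)) f

/-- The coefficient `f` of a vector field `f∂`. -/
noncomputable def Wm.coef (f : Wm) : ℂ[X] := VF.coef f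

theorem Wm.ext {f g : Wm} (h : f.coef = g.coef) : f = g := h

theorem Wm.coef_of (f : ℂ[X]) : (Wm.of f).coef = f := rfl

theorem Wm.coef_lie (f g : Wm) :
    ⁅f, g⁆.coef = f.coef * Polynomial.derivative g.coef - Polynomial.derivative f.coef * g.coef := rfl

/-- `W_{≥ 0}`, the Lie algebra of vector fields `f∂` with `f` divisible by `t`. -/
def Wge0 : LieSubalgebra ℂ Wm where
  carrier := {f | (Polynomial.X : ℂ[X]) ∣ f.coef}
  add_mem' := by intro a b ha hb; exact dvd_add (α := ℂ[X]) ha hb
  zero_mem' := dvd_zero _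
  smul_mem' := by
    intro c a ha
    change Polynomial.X ∣ c • a.coef
    rw [Polynomial.smul_eq_C_mul]
    exact dvd_mul_of_dvd_right ha _
  lie_mem' := by
    intro a b ha hb
    change Polynomial.X ∣ a.coef * Polynomial.derivative b.coef - Polynomial.derivative a.coef * b.coef
    exact dvd_sub (dvd_mul_of_dvd_left ha _) (dvd_mul_of_dvd_right hb _)

/-- `W_{≥ 0}` as a type. -/
def W0 : Type := Wge0

noncomputable instance : LieRing W0 := (inferInstance : LieRing Wge0)
noncomputable instance : LieAlgebra ℂ W0 := (inferInstance : LieAlgebra ℂ Wge0)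

/-- The coefficient `f` of an element `f∂` of `W_{≥ 0}`. -/
noncomputable def W0.coef (f : W0) : ℂ[X] := Wm.coef f.1

theorem X_pow_dvd_derivative {n : ℕ} {f : ℂ[X]} (h : Polynomial.X ^ (n + 1) ∣ f) :
    Polynomial.X ^ n ∣ Polynomial.derivative f := by
  obtain ⟨g, rfl⟩ := h
  rw [Polynomial.derivative_mul, Polynomial.derivative_X_pow]
  refine dvd_add ?_ ?_
  · simp only [Nat.add_sub_cancel]
    exact ⟨Polynomial.C (((n + 1 : ℕ) : ℂ)) * g, by ring⟩
  · exact dvd_mul_of_dvd_left (pow_dvd_pow _ (Nat.le_succ n)) _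

/-- `W_{≥ n}`, an ideal of `W_{≥ 0}`: the vector fields `f∂` with `f` divisible by `t ^ (n + 1)`. -/
def Wge (n : ℕ) : LieIdeal ℂ W0 where
  carrier := {f | (Polynomial.X : ℂ[X]) ^ (n + 1) ∣ f.coef}
  add_mem' := by intro a b ha hb; exact dvd_add (α := ℂ[X]) ha hb
  zero_mem' := dvd_zero _
  smul_mem' := by
    intro c a ha
    change Polynomial.X ^ (n + 1) ∣ c • a.coef
    rw [Polynomial.smul_eq_C_mul]
    exact dvd_mul_of_dvd_right ha _
  lie_mem := by
    intro a b hb
    have ha : Polynomial.X ∣ a.coef := a.2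
    change Polynomial.X ^ (n + 1) ∣ a.coef * Polynomial.derivative b.coef
      - Polynomial.derivative a.coef * b.coef
    refine dvd_sub ?_ (dvd_mul_of_dvd_right hb _)
    rw [pow_succ']
    exact mul_dvd_mul ha (X_pow_dvd_derivative hb)

/-- `g_n = W_{≥ 0} / W_{≥ n}`. -/
def g (n : ℕ) : Type := W0 ⧸ Wge n

noncomputable instance (n : ℕ) : LieRing (g n) := (inferInstance : LieRing (W0 ⧸ Wge n))
noncomputable instance (n : ℕ) : LieAlgebra ℂ (g n) := (inferInstance : LieAlgebra ℂ (W0 ⧸ Wge n))

/-- `e_i = t ^ (i + 1) ∂` as an element of `W_{≥ 0}`. -/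
noncomputable def e0 (i : ℕ) : W0 := ⟨Wm.of (Polynomial.X ^ (i + 1)), by
  change (Polynomial.X : ℂ[X]) ∣ Polynomial.X ^ (i + 1)
  exact dvd_pow_self _ (Nat.succ_ne_zero i)⟩

/-- `v_i = e_i + W_{≥ n}`, an element of `g_n` (zero for `i ≥ n`). -/
noncomputable def v (n i : ℕ) : g n := LieSubmodule.Quotient.mk (N := Wge n) (e0 i)

theorem v_eq_zero {n i : ℕ} (h : n ≤ i) : v n i = 0 := by
  rw [v]
  refine LieSubmodule.Quotient.mk_eq_zero'.mpr ?_
  change (Polynomial.X : ℂ[X]) ^ (n + 1) ∣ Polynomial.X ^ (i + 1)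
  exact pow_dvd_pow _ (by omega)

theorem e0_lie (i j : ℕ) : ⁅e0 i, e0 j⁆ = ((j : ℂ) - i) • e0 (i + j) := by
  apply Subtype.ext
  apply VF.ext
  change (Polynomial.X : ℂ[X]) ^ (i + 1) * Polynomial.derivative (Polynomial.X ^ (j + 1))
    - Polynomial.derivative (Polynomial.X ^ (i + 1)) * Polynomial.X ^ (j + 1)
    = ((j : ℂ) - i) • Polynomial.X ^ (i + j + 1)
  rw [Polynomial.derivative_X_pow, Polynomial.derivative_X_pow, Polynomial.smul_eq_C_mul]
  simp only [Nat.add_sub_cancel, map_sub, map_natCast]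
  push_cast
  ring

theorem v_lie (n i j : ℕ) : ⁅v n i, v n j⁆ = ((j : ℂ) - i) • v n (i + j) := by
  have h := congrArg (LieSubmodule.Quotient.mk (N := Wge n)) (e0_lie i j)
  exact h

section hD

variable {R : Type u} [CommRing R] [Algebra ℂ R] (d : Derivation ℂ R R)

/-- the divided derivative `f ^ (n) / n!` -/
noncomputable def hD (n : ℕ) (f : R) : R := ((n.factorial : ℂ)⁻¹) • (d^[n] f)

@[simp] theorem hD_zero (f : R) : hD d 0 f = f := by simp [hD]

theorem d_hD (n : ℕ) (f : R) : d (hD d n f) = ((n : ℂ) + 1) • hD d (n + 1) f := by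
  simp only [hD]
  rw [Derivation.map_smul, smul_smul, Function.iterate_succ_apply', Nat.factorial_succ]
  congr 1
  have h1 : ((n : ℂ) + 1) ≠ 0 := by exact_mod_cast Nat.succ_ne_zero n
  have h2 : (n.factorial : ℂ) ≠ 0 := by exact_mod_cast n.factorial_ne_zero
  push_cast
  field_simp

theorem hD_d (n : ℕ) (f : R) : hD d n (d f) = ((n : ℂ) + 1) • hD d (n + 1) f := by
  rw [← d_hD]
  simp only [hD]
  rw [Derivation.map_smul, ← Function.iterate_succ_apply, Function.iterate_succ_apply']

theorem hD_add (n : ℕ) (f g : R) : hD d n (f + g) = hD d n f + hD d n g := by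
  simp only [hD]
  rw [← smul_add]
  congr 1
  induction n with
  | zero => rfl
  | succ n ih => rw [Function.iterate_succ_apply', Function.iterate_succ_apply',
      Function.iterate_succ_apply', ih, map_add]

theorem hD_smul (n : ℕ) (c : ℂ) (f : R) : hD d n (c • f) = c • hD d n f := by
  simp only [hD]
  rw [smul_comm]
  congr 1
  induction n with
  | zero => rfl
  | succ n ih => rw [Function.iterate_succ_apply', Function.iterate_succ_apply',
      ih, Derivation.map_smul]

theorem hD_sub (n : ℕ) (f g : R) : hD d n (f - g) = hD d n f - hD d n g := by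
  rw [sub_eq_add_neg, hD_add, ← neg_one_smul ℂ g, hD_smul, neg_one_smul, ← sub_eq_add_neg]

open Finset in
theorem hD_mul (n : ℕ) (f g : R) :
    hD d n (f * g) = ∑ p ∈ antidiagonal n, hD d p.1 f * hD d p.2 g := by
  induction n with
  | zero => simp
  | succ n ih =>
    have h1 : ((n : ℂ) + 1) ≠ 0 := by exact_mod_cast Nat.succ_ne_zero n
    have key : ((n : ℂ) + 1) • hD d (n + 1) (f * g) =
        ((n : ℂ) + 1) • ∑ p ∈ antidiagonal (n + 1), hD d p.1 f * hD d p.2 g := by
      rw [← d_hD, ih, map_sum]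
      have hsplit : ((n : ℂ) + 1) • ∑ p ∈ antidiagonal (n + 1), hD d p.1 f * hD d p.2 g =
          ∑ p ∈ antidiagonal (n + 1), ((p.1 : ℂ) • (hD d p.1 f * hD d p.2 g)) +
          ∑ p ∈ antidiagonal (n + 1), ((p.2 : ℂ) • (hD d p.1 f * hD d p.2 g)) := by
        rw [← sum_add_distrib, smul_sum]
        refine sum_congr rfl fun p hp => ?_
        rw [← add_smul]
        congr 1
        have := Finset.HasAntidiagonal.mem_antidiagonal.mp hp
        exact_mod_cast this.symm
      rw [hsplit, Nat.sum_antidiagonal_succ, Nat.sum_antidiagonal_succ']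
      simp only [Nat.cast_zero, zero_smul, zero_add, add_zero]
      rw [← sum_add_distrib]
      refine sum_congr rfl fun p _ => ?_
      rw [Derivation.leibniz, smul_eq_mul, smul_eq_mul, d_hD, d_hD]
      push_cast
      rw [mul_smul_comm, mul_smul_comm, mul_comm (hD d p.2 g), add_comm]
    have := congrArg (fun z => ((n : ℂ) + 1)⁻¹ • z) key
    simpa only [smul_smul, inv_mul_cancel₀ h1, one_smul] using this

open Finset in
theorem hD_bracket (m : ℕ) (f g : R) :
    hD d (m + 1) (f * d g - d f * g) =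
      ((m : ℂ) + 2) • (f * hD d (m + 2) g) - ((m : ℂ) + 2) • (g * hD d (m + 2) f) +
      ∑ p ∈ antidiagonal m, ((p.2 : ℂ) - p.1) • (hD d (p.1 + 1) f * hD d (p.2 + 1) g) := by
  rw [hD_sub, hD_mul, hD_mul, Nat.sum_antidiagonal_succ]
  rw [Nat.sum_antidiagonal_succ' (f := fun p : ℕ × ℕ => hD d p.1 (d f) * hD d p.2 g)]
  simp only [hD_d, hD_zero, mul_smul_comm, smul_mul_assoc]
  have h1 : (((m + 1 : ℕ) : ℂ) + 1) = (m : ℂ) + 2 := by push_cast; ring
  rw [h1, mul_comm (hD d (m + 1 + 1) f) g]
  have h2 : ∑ p ∈ antidiagonal m, ((p.2 : ℂ) - p.1) • (hD d (p.1 + 1) f * hD d (p.2 + 1) g) =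
      ∑ p ∈ antidiagonal m, ((p.2 : ℂ) + 1) • (hD d (p.1 + 1) f * hD d (p.2 + 1) g) -
      ∑ p ∈ antidiagonal m, ((p.1 : ℂ) + 1) • (hD d (p.1 + 1) f * hD d (p.2 + 1) g) := by
    rw [← sum_sub_distrib]
    refine sum_congr rfl fun p _ => ?_
    rw [← sub_smul]
    congr 1
    ring
  rw [h2]
  abel

end hD

section dsum

open Finset

theorem dsum {M : Type*} [AddCommMonoid M] (n : ℕ) (F : ℕ → ℕ → M)
    (hF : ∀ i j, n ≤ i + j → F i j = 0) :
    ∑ i ∈ range n, ∑ j ∈ range n, F i j = ∑ k ∈ range n, ∑ p ∈ antidiagonal k, F p.1 p.2 := by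
  rw [← sum_product' (range n) (range n) F, sum_sigma']
  symm
  refine sum_bij_ne_zero (fun a _ _ => a.2) ?_ ?_ ?_ ?_
  · rintro ⟨k, p⟩ h _
    simp only [mem_sigma, mem_range, Finset.HasAntidiagonal.mem_antidiagonal] at h
    simp only [mem_product, mem_range]
    omega
  · rintro ⟨k, p⟩ h _ ⟨k', p'⟩ h' _ heq
    simp only [mem_sigma, mem_range, Finset.HasAntidiagonal.mem_antidiagonal] at h h'
    simp only at heq
    subst heq
    have : k = k' := by omega
    subst this
    rfl
  · rintro ⟨i, j⟩ h hne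
    have hlt : i + j < n := by
      by_contra hc
      exact hne (hF i j (by omega))
    exact ⟨⟨i + j, (i, j)⟩, by simp [hlt], hne, rfl⟩
  · rintro ⟨k, p⟩ _ _
    rfl

end dsum

section Psi1

variable {R : Type u} [CommRing R] [Algebra ℂ R] (d : Derivation ℂ R R)
variable {A : Type*} [Ring A] [Algebra ℂ A]

/-- The formula `f∂ + ∑ f^{(i+1)}/(i+1)! v_i` -/
noncomputable def psi1 (j : R →ₐ[ℂ] A) (P : A) (n : ℕ) (v : ℕ → A) (f : R) : A :=
  j f * P + ∑ i ∈ Finset.range n, j (hD d (i + 1) f) * v i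

/-- The data needed for `psi1` to be a homomorphism of Lie algebras. -/
structure IsPack (j : R →ₐ[ℂ] A) (P : A) (n : ℕ) (v : ℕ → A) : Prop where
  P_j : ∀ f, P * j f = j f * P + j (d f)
  v_zero : ∀ i, n ≤ i → v i = 0
  v_j : ∀ i f, v i * j f = j f * v i
  v_P : ∀ i, v i * P = P * v i
  v_v : ∀ i k, v i * v k - v k * v i = ((k : ℂ) - i) • v (i + k)

open Finset in
theorem psi1_bracket {j : R →ₐ[ℂ] A} {P : A} {n : ℕ} {v : ℕ → A} (H : IsPack d j P n v)
    (f g : R) :
    psi1 d j P n v f * psi1 d j P n v g - psi1 d j P n v g * psi1 d j P n v f =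
      psi1 d j P n v (f * d g - d f * g) := by
  have h1 : ∀ f g : R, (j f * P) * (j g * P) = j (f * g) * (P * P) + j (f * d g) * P := by
    intro f g
    calc (j f * P) * (j g * P) = j f * (P * j g) * P := by noncomm_ring
      _ = j (f * g) * (P * P) + j (f * d g) * P := by rw [H.P_j, map_mul, map_mul]; noncomm_ring
  have h2 : ∀ (f g : R) (i : ℕ), (j f * P) * (j g * v i) = j (f * g) * (P * v i) + j (f * d g) * v i := by
    intro f g i
    calc (j f * P) * (j g * v i) = j f * (P * j g) * v i := by noncomm_ring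
      _ = j (f * g) * (P * v i) + j (f * d g) * v i := by rw [H.P_j, map_mul, map_mul]; noncomm_ring
  have h3 : ∀ (f g : R) (i : ℕ), (j g * v i) * (j f * P) = j (f * g) * (P * v i) := by
    intro f g i
    calc (j g * v i) * (j f * P) = j g * (v i * j f) * P := by noncomm_ring
      _ = j g * j f * (v i * P) := by rw [H.v_j]; noncomm_ring
      _ = j (f * g) * (P * v i) := by rw [H.v_P, ← map_mul, mul_comm g f]
  have h4 : ∀ (f g : R) (i k : ℕ), (j f * v i) * (j g * v k) = j (f * g) * (v i * v k) := by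
    intro f g i k
    calc (j f * v i) * (j g * v k) = j f * (v i * j g) * v k := by noncomm_ring
      _ = j (f * g) * (v i * v k) := by rw [H.v_j, map_mul]; noncomm_ring
  simp only [psi1]
  set S : R → A := fun f => ∑ i ∈ range n, j (hD d (i + 1) f) * v i with hS
  have e1 : (j f * P + S f) * (j g * P + S g) - (j g * P + S g) * (j f * P + S f) =
      ((j f * P) * (j g * P) - (j g * P) * (j f * P)) +
      ((j f * P) * S g - S g * (j f * P)) - ((j g * P) * S f - S f * (j g * P)) +
      (S f * S g - S g * S f) := by noncomm_ring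
  change (j f * P + S f) * (j g * P + S g) - (j g * P + S g) * (j f * P + S f) =
    j (f * d g - d f * g) * P + S (f * d g - d f * g)
  rw [e1]
  have e2 : (j f * P) * (j g * P) - (j g * P) * (j f * P) = j (f * d g - d f * g) * P := by
    rw [h1, h1, mul_comm g f, mul_comm g (d f), map_sub]; noncomm_ring
  have e3 : ∀ f g : R, (j f * P) * S g - S g * (j f * P) =
      ∑ i ∈ range n, j (((i : ℂ) + 2) • (f * hD d (i + 2) g)) * v i := by
    intro f g
    simp only [hS, mul_sum, sum_mul]
    rw [← sum_sub_distrib]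
    refine sum_congr rfl fun i _ => ?_
    rw [h2, h3, add_sub_cancel_left, d_hD, mul_smul_comm]
    congr 3
    push_cast; ring
  have e4 : S f * S g - S g * S f = ∑ m ∈ range n, ∑ p ∈ antidiagonal m,
      j (((p.2 : ℂ) - p.1) • (hD d (p.1 + 1) f * hD d (p.2 + 1) g)) * v m := by
    have e5 : S f * S g - S g * S f = ∑ i ∈ range n, ∑ k ∈ range n,
        j (((k : ℂ) - i) • (hD d (i + 1) f * hD d (k + 1) g)) * v (i + k) := by
      have e6 : S g * S f = ∑ i ∈ range n, ∑ k ∈ range n,
          (j (hD d (k + 1) g) * v k) * (j (hD d (i + 1) f) * v i) := by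
        simp only [hS]
        rw [sum_mul_sum, sum_comm]
      rw [e6]
      simp only [hS]
      rw [sum_mul_sum, ← sum_sub_distrib]
      refine sum_congr rfl fun i _ => ?_
      rw [← sum_sub_distrib]
      refine sum_congr rfl fun k _ => ?_
      rw [h4, h4, mul_comm (hD d (k + 1) g), ← mul_sub, H.v_v, map_smul, mul_smul_comm,
        smul_mul_assoc]
    rw [e5, dsum n (fun i k => j (((k : ℂ) - i) • (hD d (i + 1) f * hD d (k + 1) g)) * v (i + k))]
    · refine sum_congr rfl fun m _ => sum_congr rfl fun p hp => ?_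
      rw [Finset.HasAntidiagonal.mem_antidiagonal.mp hp]
    · intro i k hik
      rw [H.v_zero _ hik, mul_zero]
  rw [e2, e3, e3, e4]
  have e7 : S (f * d g - d f * g) = ∑ i ∈ range n, j (((i : ℂ) + 2) • (f * hD d (i + 2) g)) * v i -
      ∑ i ∈ range n, j (((i : ℂ) + 2) • (g * hD d (i + 2) f)) * v i +
      ∑ m ∈ range n, ∑ p ∈ antidiagonal m,
      j (((p.2 : ℂ) - p.1) • (hD d (p.1 + 1) f * hD d (p.2 + 1) g)) * v m := by
    simp only [hS]
    rw [← sum_sub_distrib, ← sum_add_distrib]
    refine sum_congr rfl fun i _ => ?_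
    rw [hD_bracket, map_add, map_sub, map_sum, add_mul, sub_mul, sum_mul]
  rw [e7]
  abel

end Psi1

end Pool.Agent.Q113.WF
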