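import Mathlib

/-!
The obstruction: no differential operator `T` in two variables `s, p` satisfies
`[L₀, T] = 1`, `[L₁, T] = T`, `[L₂, T] = T²`, where `L₀ = 2∂ₛ + s∂ₚ`, `L₁ = s∂ₛ + 2p∂ₚ`,
`L₂ = (s² - 2p)∂ₛ + sp∂ₚ`.
-/

set_option autoImplicit false

open Polynomial

namespace Pool.Agent.Q113.WF.Core

variable {S : Type*} [CommRing S] [IsDomain S] [Algebra ℂ S]

/-- `2∂ₛ + s∂ₚ` -/
def L0 (Ds Dp : Derivation ℂ S S) (s : S) : Derivation ℂ S S := (2 : S) • Ds + s • Dp
/-- `s∂ₛ + 2p∂ₚ` -/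
def L1 (Ds Dp : Derivation ℂ S S) (s p : S) : Derivation ℂ S S := s • Ds + (2 * p) • Dp
/-- `(s² - 2p)∂ₛ + sp∂ₚ` -/
def L2 (Ds Dp : Derivation ℂ S S) (s p : S) : Derivation ℂ S S := (s ^ 2 - 2 * p) • Ds + (s * p) • Dp

/-- families of functions with an exponential-polynomial growth law -/
def Good (δ : S) (F : ℕ → S) : Prop := ∃ (r : ℕ) (Q : S[X]), ∀ j : ℕ, δ ^ r * F j = δ ^ j * Q.eval (j : S)

theorem good_add {δ : S} {F G : ℕ → S} (hF : Good δ F) (hG : Good δ G) :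
    Good δ (fun j => F j + G j) := by
  obtain ⟨r, Q, hQ⟩ := hF
  obtain ⟨r', Q', hQ'⟩ := hG
  refine ⟨r + r', C (δ ^ r') * Q + C (δ ^ r) * Q', fun j => ?_⟩
  simp only [eval_add, eval_mul, eval_C]
  calc δ ^ (r + r') * (F j + G j) = δ ^ r' * (δ ^ r * F j) + δ ^ r * (δ ^ r' * G j) := by ring
    _ = _ := by rw [hQ, hQ']; ring

theorem good_mul {δ : S} {F : ℕ → S} (a : S) (hF : Good δ F) : Good δ (fun j => a * F j) := by
  obtain ⟨r, Q, hQ⟩ := hF
  refine ⟨r, C a * Q, fun j => ?_⟩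
  simp only [eval_mul, eval_C]
  calc δ ^ r * (a * F j) = a * (δ ^ r * F j) := by ring
    _ = _ := by rw [hQ]; ring

/-- derivative of coefficients -/
theorem exists_coeff_deriv (D : Derivation ℂ S S) (Q : S[X]) :
    ∃ Q' : S[X], ∀ j : ℕ, D (Q.eval (j : S)) = Q'.eval (j : S) := by
  induction Q using Polynomial.induction_on' with
  | add p q hp hq =>
    obtain ⟨p', hp⟩ := hp
    obtain ⟨q', hq⟩ := hq
    exact ⟨p' + q', fun j => by simp [hp, hq]⟩
  | monomial n a =>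
    refine ⟨monomial n (D a), fun j => ?_⟩
    simp only [eval_monomial]
    have h : D ((j : S) ^ n) = 0 := by
      have : ((j : S) ^ n) = ((j ^ n : ℕ) : S) := by push_cast; rfl
      rw [this]
      exact D.map_natCast _
    rw [D.leibniz, h, smul_zero, zero_add, smul_eq_mul, mul_comm]

theorem good_deriv {δ : S} (hδ : δ ≠ 0) {F : ℕ → S} (D : Derivation ℂ S S) (hF : Good δ F) :
    Good δ (fun j => D (F j)) := by
  obtain ⟨r, Q, hQ⟩ := hF
  obtain ⟨Q', hQ'⟩ := exists_coeff_deriv D Q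
  refine ⟨r + 1, X * C (D δ) * Q + C δ * Q' - C (r * D δ) * Q, fun j => ?_⟩
  have h1 : D (δ ^ r * F j) = D (δ ^ j * Q.eval (j : S)) := by rw [hQ]
  rw [D.leibniz, D.leibniz, D.leibniz_pow, D.leibniz_pow, hQ'] at h1
  simp only [smul_eq_mul, nsmul_eq_mul] at h1
  simp only [eval_sub, eval_add, eval_mul, eval_C, eval_X]
  have e1 : δ * (δ ^ (r - 1) * r) = δ ^ r * r := by
    rcases r with _ | r
    · simp
    · simp only [Nat.add_sub_cancel]; ring
  have e2 : δ * (δ ^ (j - 1) * j) = δ ^ j * j := by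
    rcases j with _ | j
    · simp
    · simp only [Nat.add_sub_cancel]; ring
  have h2 := hQ j
  linear_combination δ * h1 + (r * D δ) * (-1) * h2 + (-(F j * D δ)) * e1 + (eval (j : S) Q * D δ) * e2

theorem good_op {δ : S} (hδ : δ ≠ 0) (Ds Dp : Derivation ℂ S S) {T : Module.End ℂ S}
    (hT : T ∈ Algebra.adjoin ℂ (Set.range (Algebra.lmul ℂ S) ∪
      {(Ds : S →ₗ[ℂ] S), (Dp : S →ₗ[ℂ] S)})) :
    ∀ {F : ℕ → S}, Good δ F → Good δ (fun j => T (F j)) := by
  induction hT using Algebra.adjoin_induction with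
  | mem x hx =>
    intro F hF
    rcases hx with ⟨a, rfl⟩ | hx | hx
    · exact good_mul a hF
    · subst hx; exact good_deriv hδ Ds hF
    · rw [Set.mem_singleton_iff] at hx
      subst hx; exact good_deriv hδ Dp hF
  | algebraMap c =>
    intro F hF
    have := good_mul (algebraMap ℂ S c) hF
    refine (this : Good δ _) |> fun h => ?_
    convert h using 2 with j
    rw [Module.algebraMap_end_apply, Algebra.smul_def]
  | add x y _ _ hx hy =>
    intro F hF
    exact good_add (hx hF) (hy hF)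
  | mul x y _ _ hx hy =>
    intro F hF
    exact hx (hy hF)

theorem core (Ds Dp : Derivation ℂ S S) (s p : S) (hss : Ds s = 1) (hsp : Ds p = 0)
    (hps : Dp s = 0) (hpp : Dp p = 1) (hΔ : s ^ 2 - 4 * p ≠ 0)
    (hK : ∀ (w : S) (j : ℕ), L0 Ds Dp s w = 0 → L1 Ds Dp s p w = (2 * j + 1) * w → w = 0)
    (T : Module.End ℂ S)
    (hT : T ∈ Algebra.adjoin ℂ (Set.range (Algebra.lmul ℂ S) ∪
      {(Ds : S →ₗ[ℂ] S), (Dp : S →ₗ[ℂ] S)}))
    (h0 : ∀ x, L0 Ds Dp s (T x) - T (L0 Ds Dp s x) = x)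
    (h1 : ∀ x, L1 Ds Dp s p (T x) - T (L1 Ds Dp s p x) = T x)
    (h2 : ∀ x, L2 Ds Dp s p (T x) - T (L2 Ds Dp s p x) = T (T x)) : False := by
  set δ : S := s ^ 2 - 4 * p with hδ
  have hchar : CharZero S := charZero_of_injective_algebraMap (algebraMap ℂ S).injective
  have hDsδ : Ds δ = 2 * s := by
    rw [hδ, map_sub, Ds.leibniz, Ds.leibniz_pow, hsp, hss]
    have : Ds (4 : S) = 0 := Ds.map_natCast 4
    rw [this]; simp
  have hDpδ : Dp δ = -4 := by
    rw [hδ, map_sub, Dp.leibniz, Dp.leibniz_pow, hps, hpp]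
    have : Dp (4 : S) = 0 := Dp.map_natCast 4
    rw [this]; simp
  have hL0δ : L0 Ds Dp s δ = 0 := by
    simp only [L0, Derivation.add_apply, Derivation.smul_apply, hDsδ, hDpδ, smul_eq_mul]; ring
  have hL1δ : L1 Ds Dp s p δ = 2 * δ := by
    simp only [L1, Derivation.add_apply, Derivation.smul_apply, hDsδ, hDpδ, smul_eq_mul]
    rw [hδ]; ring
  have hL2δ : L2 Ds Dp s p δ = 2 * s * δ := by
    simp only [L2, Derivation.add_apply, Derivation.smul_apply, hDsδ, hDpδ, smul_eq_mul]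
    rw [hδ]; ring
  have hL0s : L0 Ds Dp s s = 2 := by
    simp only [L0, Derivation.add_apply, Derivation.smul_apply, hss, hps, smul_eq_mul]; ring
  have hL1s : L1 Ds Dp s p s = s := by
    simp only [L1, Derivation.add_apply, Derivation.smul_apply, hss, hps, smul_eq_mul]; ring
  have hL2s : L2 Ds Dp s p s = s ^ 2 - 2 * p := by
    simp only [L2, Derivation.add_apply, Derivation.smul_apply, hss, hps, smul_eq_mul]; ring
  have powg : ∀ (L : Derivation ℂ S S) (a : S) (_ : L δ = a * δ) (j : ℕ),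
      L (δ ^ j) = j * a * δ ^ j := by
    intro L a ha j
    rw [L.leibniz_pow, ha]
    rcases j with _ | j
    · simp
    · simp only [Nat.add_sub_cancel, smul_eq_mul, nsmul_eq_mul]; ring
  have p0 : ∀ j, L0 Ds Dp s (δ ^ j) = 0 := by
    intro j; rw [powg _ 0 (by rw [hL0δ]; ring) j]; ring
  have p1 : ∀ j : ℕ, L1 Ds Dp s p (δ ^ j) = (2 * j : ℕ) • δ ^ j := by
    intro j; rw [powg _ 2 hL1δ j, nsmul_eq_mul]; push_cast; ring
  have p2 : ∀ j : ℕ, L2 Ds Dp s p (δ ^ j) = (2 * j : ℕ) • (s * δ ^ j) := by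
    intro j; rw [powg _ (2 * s) hL2δ j, nsmul_eq_mul]; push_cast; ring
  -- value on powers
  have t1 : ∀ j : ℕ, 1 ≤ j → (2 : ℕ) • T (δ ^ j) = s * δ ^ j := by
    intro j hj
    have hw : (2 * j : ℕ) • (s * δ ^ j) - (4 * j : ℕ) • T (δ ^ j) = 0 := by
      apply hK _ j
      · have e := h0 (δ ^ j)
        rw [p0, map_zero, sub_zero] at e
        rw [map_sub, map_nsmul, map_nsmul, e, Derivation.leibniz, p0, hL0s]
        simp only [nsmul_eq_mul, smul_eq_mul]
        push_cast; ring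
      · have e := h1 (δ ^ j)
        rw [p1, map_nsmul] at e
        have e' : L1 Ds Dp s p (T (δ ^ j)) = T (δ ^ j) + (2 * j : ℕ) • T (δ ^ j) :=
          sub_eq_iff_eq_add.mp e
        rw [map_sub, map_nsmul, map_nsmul, e', Derivation.leibniz, p1, hL1s]
        simp only [nsmul_eq_mul, smul_eq_mul]
        push_cast; ring
    have hj0 : ((2 * j : ℕ) : S) ≠ 0 := by
      have : 2 * j ≠ 0 := by omega
      exact_mod_cast this
    apply mul_left_cancel₀ hj0
    have hw' := sub_eq_zero.mp hw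
    rw [nsmul_eq_mul, nsmul_eq_mul] at hw'
    rw [hw', nsmul_eq_mul]
    push_cast; ring
  have t2 : ∀ j : ℕ, 1 ≤ j → ((4 * j + 1 : ℕ) : S) * T (s * δ ^ j) =
      ((2 * j + 1) * s ^ 2 - 2 * p) * δ ^ j := by
    intro j hj
    have e := h2 (δ ^ j)
    have e2 : (2 : ℕ) • L2 Ds Dp s p (T (δ ^ j)) - (2 : ℕ) • T (L2 Ds Dp s p (δ ^ j)) =
        (2 : ℕ) • T (T (δ ^ j)) := by rw [← e, smul_sub]
    rw [← map_nsmul, t1 j hj, ← map_nsmul T, ← map_nsmul T, t1 j hj, p2, map_nsmul, map_nsmul,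
      Derivation.leibniz, p2, hL2s] at e2
    simp only [nsmul_eq_mul, smul_eq_mul] at e2
    push_cast at e2 ⊢
    linear_combination -e2
  obtain ⟨r, Q, hQ⟩ := good_op hΔ Ds Dp hT (F := fun j => s * δ ^ j) ⟨0, C s, fun j => by
    simp [mul_comm]⟩
  have hpoly : (4 * X + 1) * Q = C (δ ^ r) * ((2 * X + 1) * C (s ^ 2) - C (2 * p)) := by
    rw [← sub_eq_zero]
    apply Polynomial.eq_zero_of_infinite_isRoot
    refine Set.infinite_of_injective_forall_mem (f := fun j : ℕ => ((j + 1 : ℕ) : S)) ?_ ?_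
    · intro a b hab
      have : a + 1 = b + 1 := Nat.cast_injective (R := S) hab
      omega
    · intro j
      simp only [Set.mem_ofPred_eq, IsRoot.def, eval_sub, eval_mul, eval_add, eval_ofNat, eval_X,
        eval_one, eval_C]
      have e1 := hQ (j + 1)
      have e2 := t2 (j + 1) (by omega)
      have hδj : δ ^ (j + 1) ≠ 0 := pow_ne_zero _ hΔ
      apply mul_left_cancel₀ hδj
      push_cast at e1 e2 ⊢
      linear_combination (-(4 * ((j : S) + 1) + 1)) * e1 + δ ^ r * e2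
  have hev := congrArg (Polynomial.eval (algebraMap ℂ S (-1 / 4))) hpoly
  simp only [eval_sub, eval_mul, eval_add, eval_ofNat, eval_X, eval_one, eval_C] at hev
  have h4 : (4 : S) * algebraMap ℂ S (-1 / 4) = -1 := by
    have : (4 : S) = algebraMap ℂ S 4 := by rw [map_ofNat]
    rw [this, ← map_mul]; norm_num
  have h5 : δ ^ r * δ = 0 := by
    have h6 : (2 : S) * algebraMap ℂ S (-1 / 4) * 2 = -1 := by rw [← h4]; ring
    linear_combination (-2) * hev + (2 * eval (algebraMap ℂ S (-1 / 4)) Q - 0) * h4 - δ ^ r * s ^ 2 * h6 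
  exact (mul_ne_zero (pow_ne_zero r hΔ) hΔ) h5

end Pool.Agent.Q113.WF.Core
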