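import Mathlib
import Pool.Agent.Q113.WF.Base
import Pool.Agent.Q113.WF.Core

/-!
Rings of differential operators and the homomorphisms `Ψ_𝐧`.
-/

set_option autoImplicit false

open scoped TensorProduct DirectSum

namespace Pool.Agent.Q113.WF

attribute [local instance 100] LieRing.ofAssociativeRing

/-- A ring `S` of functions in `ℓ` variables, with algebra maps `e c : R → S` (`f ↦ f(t_c)`),
commuting derivations `D c = ∂_c`, and an algebra `A` of differential operators on `S` containing the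
multiplication operators and the derivations. -/
structure Geo {R : Type} [CommRing R] [Algebra ℂ R] (d : Derivation ℂ R R) (ℓ : ℕ)
    (S : Type) [CommRing S] [Algebra ℂ S] where
  e : Fin ℓ → R →ₐ[ℂ] S
  D : Fin ℓ → Derivation ℂ S S
  D_e : ∀ i c f, D i (e c f) = if i = c then e c (d f) else 0
  D_comm : ∀ i k x, D i (D k x) = D k (D i x)
  A : Subalgebra ℂ (Module.End ℂ S)
  mem_mul : ∀ a, Algebra.lmul ℂ S a ∈ A
  mem_D : ∀ c, (D c : S →ₗ[ℂ] S) ∈ A

theorem sum_lie {B ι : Type*} [Ring B] [Fintype ι] (x y : ι → B)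
    (h : ∀ c c', c ≠ c' → Commute (x c) (y c')) :
    (∑ c, x c) * (∑ c, y c) - (∑ c, y c) * (∑ c, x c) = ∑ c, (x c * y c - y c * x c) := by
  classical
  rw [Finset.sum_mul_sum, Finset.sum_mul_sum]
  rw [Finset.sum_comm (f := fun i j => y i * x j)]
  rw [← Finset.sum_sub_distrib]
  refine Finset.sum_congr rfl fun c _ => ?_
  rw [← Finset.sum_sub_distrib, Finset.sum_eq_single c]
  · intro c' _ hne
    rw [(h _ _ hne.symm).eq, sub_self]
  · intro h; exact absurd (Finset.mem_univ c) h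

theorem sum_comm_single {B ι : Type*} [Ring B] [Fintype ι] (x : ι → B) (z : B) (c : ι)
    (h : ∀ c', c' ≠ c → Commute (x c') z) :
    (∑ c, x c) * z - z * (∑ c, x c) = x c * z - z * x c := by
  classical
  rw [Finset.sum_mul, Finset.mul_sum, ← Finset.sum_sub_distrib, Finset.sum_eq_single c]
  · intro c' _ hne
    rw [(h _ hne).eq, sub_self]
  · intro h; exact absurd (Finset.mem_univ c) h

/-- The Lie algebra `g_𝐧 = g_{n_1} ⊕ ⋯ ⊕ g_{n_ℓ}`. -/
def gsum {ℓ : ℕ} (n : Fin ℓ → ℕ) : Type := ⨁ c : Fin ℓ, g (n c)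

noncomputable instance {ℓ : ℕ} (n : Fin ℓ → ℕ) : LieRing (gsum n) :=
  (inferInstance : LieRing (⨁ c : Fin ℓ, g (n c)))
noncomputable instance {ℓ : ℕ} (n : Fin ℓ → ℕ) : LieAlgebra ℂ (gsum n) :=
  (inferInstance : LieAlgebra ℂ (⨁ c : Fin ℓ, g (n c)))

/-- The element `x` of the `c`-th summand of `g_𝐧`. -/
noncomputable def gsum.of {ℓ : ℕ} (n : Fin ℓ → ℕ) (c : Fin ℓ) (x : g (n c)) : gsum n :=
  DirectSum.of (fun c : Fin ℓ => g (n c)) c x

/-- The enveloping algebra of `g_𝐧 = g_{n_1} ⊕ ⋯ ⊕ g_{n_ℓ}`. -/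
abbrev UU {ℓ : ℕ} (n : Fin ℓ → ℕ) : Type := UniversalEnvelopingAlgebra ℂ (gsum n)

/-- The enveloping algebra of `g_𝐧 = g_{n_1} ⊕ ⋯ ⊕ g_{n_ℓ}`. -/
def U {ℓ : ℕ} (n : Fin ℓ → ℕ) : Type := UniversalEnvelopingAlgebra ℂ (gsum n)

noncomputable instance {ℓ : ℕ} (n : Fin ℓ → ℕ) : Ring (U n) :=
  (inferInstance : Ring (UniversalEnvelopingAlgebra ℂ (gsum n)))
noncomputable instance {ℓ : ℕ} (n : Fin ℓ → ℕ) : Algebra ℂ (U n) :=
  (inferInstance : Algebra ℂ (UniversalEnvelopingAlgebra ℂ (gsum n)))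

/-- `v_i` of the `c`-th summand of `g_𝐧`, as an element of the enveloping algebra. -/
noncomputable def vU {ℓ : ℕ} (n : Fin ℓ → ℕ) (c : Fin ℓ) (i : ℕ) : U n :=
  UniversalEnvelopingAlgebra.ι ℂ (gsum.of n c (v (n c) i))

/-- `v_i` of the `c`-th summand of `g_𝐧`, as an element of the enveloping algebra. -/
noncomputable def vUU {ℓ : ℕ} (n : Fin ℓ → ℕ) (c : Fin ℓ) (i : ℕ) : UU n :=
  UniversalEnvelopingAlgebra.ι ℂ (gsum.of n c (v (n c) i))

namespace Geo

variable {R : Type} [CommRing R] [Algebra ℂ R] {d : Derivation ℂ R R} {ℓ : ℕ}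
  {S : Type} [CommRing S] [Algebra ℂ S] (G : Geo d ℓ S)

/-- `f ↦ f(t_c)` as a multiplication operator -/
noncomputable def j (c : Fin ℓ) : R →ₐ[ℂ] G.A :=
  ((Algebra.lmul ℂ S).comp (G.e c)).codRestrict G.A (fun _ => G.mem_mul _)

/-- `∂_c` as an operator -/
def P (c : Fin ℓ) : G.A := ⟨(G.D c : S →ₗ[ℂ] S), G.mem_D c⟩

theorem j_apply (c : Fin ℓ) (f : R) (x : S) : (G.j c f : Module.End ℂ S) x = G.e c f * x := rfl

theorem P_apply (c : Fin ℓ) (x : S) : (G.P c : Module.End ℂ S) x = G.D c x := rfl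

theorem mul_apply (a b : G.A) (x : S) : ((a * b : G.A) : Module.End ℂ S) x =
    (a : Module.End ℂ S) ((b : Module.End ℂ S) x) := rfl

theorem add_apply (a b : G.A) (x : S) : ((a + b : G.A) : Module.End ℂ S) x =
    (a : Module.End ℂ S) x + (b : Module.End ℂ S) x := rfl

theorem ext' {a b : G.A} (h : ∀ x, (a : Module.End ℂ S) x = (b : Module.End ℂ S) x) : a = b :=
  Subtype.ext (LinearMap.ext h)

theorem P_j_same (c : Fin ℓ) (f : R) : G.P c * G.j c f = G.j c f * G.P c + G.j c (d f) := by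
  apply G.ext'
  intro x
  simp only [mul_apply, add_apply, j_apply, P_apply, Derivation.leibniz, G.D_e, if_true, smul_eq_mul]
  ring

theorem P_j_ne {c c' : Fin ℓ} (h : c ≠ c') (f : R) : G.P c * G.j c' f = G.j c' f * G.P c := by
  apply G.ext'
  intro x
  simp only [mul_apply, j_apply, P_apply, Derivation.leibniz, G.D_e, if_neg h, smul_eq_mul]
  ring

theorem P_P (c c' : Fin ℓ) : G.P c * G.P c' = G.P c' * G.P c := by
  apply G.ext'
  intro x
  simp only [mul_apply, P_apply]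
  exact G.D_comm c c' x

theorem j_j (c c' : Fin ℓ) (f f' : R) : G.j c f * G.j c' f' = G.j c' f' * G.j c f := by
  apply G.ext'
  intro x
  simp only [mul_apply, j_apply]
  ring

theorem vUU_zero {ℓ : ℕ} (n : Fin ℓ → ℕ) (c : Fin ℓ) {i : ℕ} (h : n c ≤ i) : vUU n c i = 0 := by
  change UniversalEnvelopingAlgebra.ι ℂ (DirectSum.lieAlgebraOf ℂ (Fin ℓ) (fun c => g (n c)) c
    (v (n c) i)) = 0
  rw [v_eq_zero h, map_zero, map_zero]

theorem vUU_lie {ℓ : ℕ} (n : Fin ℓ → ℕ) (c : Fin ℓ) (i k : ℕ) :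
    vUU n c i * vUU n c k - vUU n c k * vUU n c i = ((k : ℂ) - i) • vUU n c (i + k) := by
  change UniversalEnvelopingAlgebra.ι ℂ (DirectSum.lieAlgebraOf ℂ (Fin ℓ) (fun c => g (n c)) c
    (v (n c) i)) * UniversalEnvelopingAlgebra.ι ℂ (DirectSum.lieAlgebraOf ℂ (Fin ℓ)
    (fun c => g (n c)) c (v (n c) k)) -
    UniversalEnvelopingAlgebra.ι ℂ (DirectSum.lieAlgebraOf ℂ (Fin ℓ) (fun c => g (n c)) c
    (v (n c) k)) * UniversalEnvelopingAlgebra.ι ℂ (DirectSum.lieAlgebraOf ℂ (Fin ℓ)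
    (fun c => g (n c)) c (v (n c) i)) = ((k : ℂ) - i) •
    UniversalEnvelopingAlgebra.ι ℂ (DirectSum.lieAlgebraOf ℂ (Fin ℓ) (fun c => g (n c)) c
    (v (n c) (i + k)))
  rw [← Ring.lie_def, ← LieHom.map_lie, ← LieHom.map_lie, v_lie, map_smul, map_smul]

theorem vUU_comm {ℓ : ℕ} (n : Fin ℓ → ℕ) {c c' : Fin ℓ} (hc : c ≠ c') (i k : ℕ) :
    vUU n c i * vUU n c' k = vUU n c' k * vUU n c i := by
  rw [← sub_eq_zero]
  change UniversalEnvelopingAlgebra.ι ℂ (DirectSum.lieAlgebraOf ℂ (Fin ℓ) (fun c => g (n c)) c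
    (v (n c) i)) * UniversalEnvelopingAlgebra.ι ℂ (DirectSum.lieAlgebraOf ℂ (Fin ℓ)
    (fun c => g (n c)) c' (v (n c') k)) -
    UniversalEnvelopingAlgebra.ι ℂ (DirectSum.lieAlgebraOf ℂ (Fin ℓ) (fun c => g (n c)) c'
    (v (n c') k)) * UniversalEnvelopingAlgebra.ι ℂ (DirectSum.lieAlgebraOf ℂ (Fin ℓ)
    (fun c => g (n c)) c (v (n c) i)) = 0
  rw [← Ring.lie_def, ← LieHom.map_lie]
  have h : ⁅DirectSum.lieAlgebraOf ℂ (Fin ℓ) (fun c => g (n c)) c (v (n c) i),
      DirectSum.lieAlgebraOf ℂ (Fin ℓ) (fun c => g (n c)) c' (v (n c') k)⁆ = 0 :=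
    DirectSum.lie_of_of_ne (fun c => g (n c)) hc _ _
  rw [h, map_zero]

/-- `f(t_c) ⊗ 1` -/
noncomputable def J (n : Fin ℓ → ℕ) (c : Fin ℓ) : R →ₐ[ℂ] G.A ⊗[ℂ] UU n :=
  Algebra.TensorProduct.includeLeft.comp (G.j c)

/-- `∂_c ⊗ 1` -/
noncomputable def PP (n : Fin ℓ → ℕ) (c : Fin ℓ) : G.A ⊗[ℂ] UU n := G.P c ⊗ₜ 1

/-- `1 ⊗ v_i` -/
noncomputable def VV (n : Fin ℓ → ℕ) (c : Fin ℓ) (i : ℕ) : G.A ⊗[ℂ] UU n := 1 ⊗ₜ vUU n c i

theorem J_apply (n : Fin ℓ → ℕ) (c : Fin ℓ) (f : R) : G.J n c f = G.j c f ⊗ₜ 1 := rfl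

theorem isPack (n : Fin ℓ → ℕ) (c : Fin ℓ) : IsPack d (G.J n c) (G.PP n c) (n c) (G.VV n c) where
  P_j f := by
    simp only [J_apply, PP, Algebra.TensorProduct.tmul_mul_tmul, one_mul]
    rw [G.P_j_same, TensorProduct.add_tmul]
  v_zero i h := by rw [VV, vUU_zero n c h, TensorProduct.tmul_zero]
  v_j i f := by simp only [J_apply, VV, Algebra.TensorProduct.tmul_mul_tmul, one_mul, mul_one]
  v_P i := by simp only [PP, VV, Algebra.TensorProduct.tmul_mul_tmul, one_mul, mul_one]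
  v_v i k := by
    simp only [VV, Algebra.TensorProduct.tmul_mul_tmul, one_mul]
    rw [← TensorProduct.tmul_sub, vUU_lie, TensorProduct.tmul_smul]

/-- `Ψ_{n_c}` in the `c`-th variable -/
noncomputable def psiC (n : Fin ℓ → ℕ) (c : Fin ℓ) (f : R) : G.A ⊗[ℂ] UU n :=
  psi1 d (G.J n c) (G.PP n c) (n c) (G.VV n c) f

theorem psiC_comm (n : Fin ℓ → ℕ) {c c' : Fin ℓ} (h : c ≠ c') (f f' : R) :
    Commute (G.psiC n c f) (G.psiC n c' f') := by
  have c1 : ∀ a b, Commute (G.J n c a) (G.J n c' b) := fun a b => by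
    simp only [commute_iff_eq, J_apply, Algebra.TensorProduct.tmul_mul_tmul, one_mul]
    rw [G.j_j]
  have c2 : ∀ a, Commute (G.J n c a) (G.PP n c') := fun a => by
    simp only [commute_iff_eq, J_apply, PP, Algebra.TensorProduct.tmul_mul_tmul, one_mul]
    rw [G.P_j_ne h.symm]
  have c3 : ∀ b, Commute (G.PP n c) (G.J n c' b) := fun b => by
    simp only [commute_iff_eq, J_apply, PP, Algebra.TensorProduct.tmul_mul_tmul, one_mul]
    rw [G.P_j_ne h]
  have c4 : Commute (G.PP n c) (G.PP n c') := by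
    simp only [commute_iff_eq, PP, Algebra.TensorProduct.tmul_mul_tmul, one_mul]
    rw [G.P_P]
  have c5 : ∀ i k, Commute (G.VV n c i) (G.VV n c' k) := fun i k => by
    simp only [commute_iff_eq, VV, Algebra.TensorProduct.tmul_mul_tmul, one_mul]
    rw [vUU_comm n h]
  have c6 : ∀ a (c₁ c₂ : Fin ℓ) i, Commute (G.J n c₁ a) (G.VV n c₂ i) := fun a c₁ c₂ i => by
    simp only [commute_iff_eq, J_apply, VV, Algebra.TensorProduct.tmul_mul_tmul, one_mul, mul_one]
  have c7 : ∀ (c₁ c₂ : Fin ℓ) i, Commute (G.PP n c₁) (G.VV n c₂ i) := fun c₁ c₂ i => by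
    simp only [commute_iff_eq, PP, VV, Algebra.TensorProduct.tmul_mul_tmul, one_mul, mul_one]
  simp only [psiC, psi1]
  refine Commute.add_left ?_ (Commute.sum_left _ _ _ fun i _ => ?_)
  · refine Commute.add_right ?_ (Commute.sum_right _ _ _ fun i _ => ?_)
    · exact ((c1 _ _).mul_right (c2 _)).mul_left ((c3 _).mul_right c4)
    · exact ((c1 _ _).mul_right (c6 _ _ _ _)).mul_left ((c3 _).mul_right (c7 _ _ _))
  · refine Commute.add_right ?_ (Commute.sum_right _ _ _ fun k _ => ?_)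
    · exact ((c1 _ _).mul_right (c2 _)).mul_left (((c6 _ _ _ _).symm).mul_right (c7 _ _ _).symm)
    · exact ((c1 _ _).mul_right (c6 _ _ _ _)).mul_left (((c6 _ _ _ _).symm).mul_right (c5 _ _))

theorem psi1_add {B : Type*} [Ring B] [Algebra ℂ B] (j : R →ₐ[ℂ] B) (P : B) (n : ℕ) (v : ℕ → B)
    (f f' : R) : psi1 d j P n v (f + f') = psi1 d j P n v f + psi1 d j P n v f' := by
  simp only [psi1, hD_add, map_add, add_mul, Finset.sum_add_distrib]
  abel

theorem psi1_smul {B : Type*} [Ring B] [Algebra ℂ B] (j : R →ₐ[ℂ] B) (P : B) (n : ℕ) (v : ℕ → B)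
    (t : ℂ) (f : R) : psi1 d j P n v (t • f) = t • psi1 d j P n v f := by
  simp only [psi1, hD_smul, map_smul, smul_mul_assoc, smul_add, Finset.smul_sum]

/-- The Lie algebra homomorphism
`f∂ ↦ ∑_c (f(t_c)∂_c ⊗ 1 + ∑_{i < n_c} f^{(i+1)}(t_c)/(i+1)! ⊗ v_i)`. -/
noncomputable def PsiLie (n : Fin ℓ → ℕ) : VF d →ₗ⁅ℂ⁆ (G.A ⊗[ℂ] UU n) where
  toFun f := ∑ c, G.psiC n c f.coef
  map_add' f f' := by
    simp only [psiC, VF.coef_add, psi1_add, Finset.sum_add_distrib]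
  map_smul' t f := by
    simp only [psiC, VF.coef_smul, psi1_smul, Finset.smul_sum, RingHom.id_apply]
  map_lie' := by
    intro f f'
    rw [Ring.lie_def]
    have key := sum_lie (fun c => G.psiC n c f.coef) (fun c => G.psiC n c f'.coef)
      fun c c' h => G.psiC_comm n h f.coef f'.coef
    refine Eq.trans ?_ key.symm
    exact Finset.sum_congr rfl fun c _ => (psi1_bracket d (G.isPack n c) f.coef f'.coef).symm

/-- The algebra homomorphism `Ψ_𝐧` on the enveloping algebra. -/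
noncomputable def Psi (n : Fin ℓ → ℕ) :
    UniversalEnvelopingAlgebra ℂ (VF d) →ₐ[ℂ] (G.A ⊗[ℂ] UU n) :=
  UniversalEnvelopingAlgebra.lift ℂ (G.PsiLie n)

theorem Psi_ι (n : Fin ℓ → ℕ) (f : VF d) :
    G.Psi n (UniversalEnvelopingAlgebra.ι ℂ f) = ∑ c, G.psiC n c f.coef := by
  rw [Psi, UniversalEnvelopingAlgebra.lift_ι_apply]
  rfl

/-- `[Ψ(f∂), h(t_c)] = (f h')(t_c)` -/
theorem Psi_comm (n : Fin ℓ → ℕ) (c : Fin ℓ) (f : VF d) (h : R) :
    G.Psi n (UniversalEnvelopingAlgebra.ι ℂ f) * G.J n c h -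
      G.J n c h * G.Psi n (UniversalEnvelopingAlgebra.ι ℂ f) = G.J n c (f.coef * d h) := by
  rw [Psi_ι]
  refine Eq.trans (sum_comm_single (fun c => G.psiC n c f.coef) (G.J n c h) c ?_) ?_
  rotate_left
  · have H := G.isPack n c
    have e1 : ∀ {B : Type} [Ring B] [Algebra ℂ B] (j : R →ₐ[ℂ] B) (P : B) (m : ℕ) (v : ℕ → B)
        (_ : IsPack d j P m v),
        psi1 d j P m v f.coef * j h - j h * psi1 d j P m v f.coef = j (f.coef * d h) := by
      intro B _ _ j P m v H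
      simp only [psi1]
      rw [add_mul, mul_add, Finset.sum_mul, Finset.mul_sum]
      have h1 : ∀ i, j (hD d (i + 1) f.coef) * v i * j h =
          j h * (j (hD d (i + 1) f.coef) * v i) := by
        intro i
        rw [mul_assoc, H.v_j, ← mul_assoc, ← mul_assoc, ← map_mul, ← map_mul, mul_comm h]
      simp only [h1]
      rw [add_sub_add_right_eq_sub, mul_assoc, H.P_j, mul_add, ← mul_assoc, ← mul_assoc, ← map_mul,
        ← map_mul, ← map_mul, mul_comm h]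
      abel
    exact e1 _ _ _ _ H
  · intro c' hne
    have c1 : ∀ a, Commute (G.J n c' a) (G.J n c h) := fun a => by
      simp only [commute_iff_eq, J_apply, Algebra.TensorProduct.tmul_mul_tmul, one_mul]
      rw [G.j_j]
    have c3 : Commute (G.PP n c') (G.J n c h) := by
      simp only [commute_iff_eq, J_apply, PP, Algebra.TensorProduct.tmul_mul_tmul, one_mul]
      rw [G.P_j_ne hne]
    have c6 : ∀ i, Commute (G.VV n c' i) (G.J n c h) := fun i => by
      simp only [commute_iff_eq, J_apply, VV, Algebra.TensorProduct.tmul_mul_tmul, one_mul, mul_one]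
    simp only [psiC, psi1]
    exact (((c1 _).mul_left c3).add_left (Commute.sum_left _ _ _ fun i _ =>
      (c1 _).mul_left (c6 i)))

end Geo

end Pool.Agent.Q113.WF
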