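import Mathlib
import Pool.Agent.Q113.WF.Geo

/-!
The action of vector fields on the symmetric square of the line, in the coordinates
`s = t₁ + t₂`, `p = t₁t₂`.
-/

set_option autoImplicit false

open scoped TensorProduct DirectSum

namespace Pool.Agent.Q113.WF

attribute [local instance 100] LieRing.ofAssociativeRing

section quad

variable {S : Type} [CommRing S] [Algebra ℂ S] (Ds Dp : Derivation ℂ S S) (s p : S)

/-- The quadratic extension `S[ω]`, `ω² = sω - p`. -/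
abbrev QQ (s p : S) : Type := QuadraticAlgebra S (-p) s

/-- the derivation of `S` induced by `ω ↦ F` -/
def LF (F : QQ s p) : Derivation ℂ S S :=
  (2 * F.re + s * F.im) • Ds + (2 * p * F.im + s * F.re) • Dp

variable {s p}

theorem LF_apply (F : QQ s p) (x : S) : LF Ds Dp s p F x =
    (2 * F.re + s * F.im) * Ds x + (2 * p * F.im + s * F.re) * Dp x := by
  simp only [LF, Derivation.add_apply, Derivation.smul_apply, smul_eq_mul]

/-- the derivation of `S[ω]` with `ω ↦ F` -/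
def ZF (hss : Ds s = 1) (hsp : Ds p = 0) (hps : Dp s = 0) (hpp : Dp p = 1) (F : QQ s p) :
    Derivation ℂ (QQ s p) (QQ s p) :=
  Derivation.mk'
    { toFun := fun z => ⟨LF Ds Dp s p F z.re + z.im * F.re, LF Ds Dp s p F z.im + z.im * F.im⟩
      map_add' := by
        intro z w
        ext <;> simp <;> ring
      map_smul' := by
        intro c z
        ext <;> simp }
    (by
      intro z w
      ext
      · simp [LF_apply, hss, hsp, hps, hpp]
        ring
      · simp [LF_apply, hss, hsp, hps, hpp]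
        ring)

theorem ZF_apply (hss : Ds s = 1) (hsp : Ds p = 0) (hps : Dp s = 0) (hpp : Dp p = 1)
    (F z : QQ s p) : ZF Ds Dp hss hsp hps hpp F z =
      ⟨LF Ds Dp s p F z.re + z.im * F.re, LF Ds Dp s p F z.im + z.im * F.im⟩ := rfl

theorem ZF_omega (hss : Ds s = 1) (hsp : Ds p = 0) (hps : Dp s = 0) (hpp : Dp p = 1)
    (F : QQ s p) : ZF Ds Dp hss hsp hps hpp F ⟨0, 1⟩ = F := by
  rw [ZF_apply]
  ext
  · simp
  · simp

theorem LF_comm (hss : Ds s = 1) (hsp : Ds p = 0) (hps : Dp s = 0) (hpp : Dp p = 1)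
    (hc : ∀ x, Ds (Dp x) = Dp (Ds x)) (F G : QQ s p) (x : S) :
    LF Ds Dp s p F (LF Ds Dp s p G x) - LF Ds Dp s p G (LF Ds Dp s p F x) =
      LF Ds Dp s p (ZF Ds Dp hss hsp hps hpp F G - ZF Ds Dp hss hsp hps hpp G F) x := by
  have h2s : Ds (2 : S) = 0 := Ds.map_natCast 2
  have h2p : Dp (2 : S) = 0 := Dp.map_natCast 2
  simp only [LF_apply, ZF_apply, map_add, Derivation.leibniz, hss, hsp, hps, hpp, smul_eq_mul,
    QuadraticAlgebra.re_sub, QuadraticAlgebra.im_sub, h2s, h2p, hc x]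
  ring

variable {R : Type} [CommRing R] [Algebra ℂ R] {d : Derivation ℂ R R}

theorem LF_lie (hss : Ds s = 1) (hsp : Ds p = 0) (hps : Dp s = 0) (hpp : Dp p = 1)
    (hc : ∀ x, Ds (Dp x) = Dp (Ds x)) (ev : R →ₐ[ℂ] QQ s p)
    (hU : ∀ (Z : Derivation ℂ (QQ s p) (QQ s p)) (f : R), Z (ev f) = ev (d f) * Z ⟨0, 1⟩)
    (f g : R) (x : S) :
    LF Ds Dp s p (ev f) (LF Ds Dp s p (ev g) x) - LF Ds Dp s p (ev g) (LF Ds Dp s p (ev f) x) =
      LF Ds Dp s p (ev (f * d g - d f * g)) x := by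
  rw [LF_comm Ds Dp hss hsp hps hpp hc, hU, hU, ZF_omega, ZF_omega, map_sub, map_mul, map_mul,
    mul_comm (ev (d g))]

end quad

/-- A coordinate system on the symmetric square: a ring of functions in the two variables
`s = e 0 t`, `p = e 1 t`, and an evaluation at the root `ω` of `X² - sX + p`. -/
structure SymSq {R : Type} [CommRing R] [Algebra ℂ R] {d : Derivation ℂ R R} {S : Type}
    [CommRing S] [Algebra ℂ S] (G : Geo d 2 S) (t : R) where
  ht : d t = 1
  ev : R →ₐ[ℂ] QQ (G.e 0 t) (G.e 1 t)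
  ev_t : ev t = ⟨0, 1⟩
  hU : ∀ (Z : Derivation ℂ (QQ (G.e 0 t) (G.e 1 t)) (QQ (G.e 0 t) (G.e 1 t))) (f : R),
    Z (ev f) = ev (d f) * Z ⟨0, 1⟩

namespace SymSq

variable {R : Type} [CommRing R] [Algebra ℂ R] {d : Derivation ℂ R R} {S : Type}
    [CommRing S] [Algebra ℂ S] {G : Geo d 2 S} {t : R} (Y : SymSq G t)

include Y in
theorem hss : G.D 0 (G.e 0 t) = 1 := by rw [G.D_e, if_pos rfl, Y.ht, map_one]
include Y in
theorem hpp : G.D 1 (G.e 1 t) = 1 := by rw [G.D_e, if_pos rfl, Y.ht, map_one]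
theorem hsp : G.D 0 (G.e 1 t) = 0 := by rw [G.D_e, if_neg (by decide)]
theorem hps : G.D 1 (G.e 0 t) = 0 := by rw [G.D_e, if_neg (by decide)]

/-- the vector field on the symmetric square induced by `f∂` -/
noncomputable def der (f : R) : Derivation ℂ S S :=
  LF (G.D 0) (G.D 1) (G.e 0 t) (G.e 1 t) (Y.ev f)

theorem der_mem (f : R) : (Y.der f : S →ₗ[ℂ] S) ∈ G.A := by
  have h : (Y.der f : S →ₗ[ℂ] S) =
      Algebra.lmul ℂ S (2 * (Y.ev f).re + (G.e 0 t) * (Y.ev f).im) * (G.D 0 : S →ₗ[ℂ] S) +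
      Algebra.lmul ℂ S (2 * (G.e 1 t) * (Y.ev f).im + (G.e 0 t) * (Y.ev f).re) *
        (G.D 1 : S →ₗ[ℂ] S) := by
    ext x
    exact LF_apply _ _ _ _
  rw [h]
  exact add_mem (mul_mem (G.mem_mul _) (G.mem_D _)) (mul_mem (G.mem_mul _) (G.mem_D _))

theorem der_apply (f : R) (x : S) : Y.der f x =
    (2 * (Y.ev f).re + (G.e 0 t) * (Y.ev f).im) * G.D 0 x +
    (2 * (G.e 1 t) * (Y.ev f).im + (G.e 0 t) * (Y.ev f).re) * G.D 1 x := LF_apply _ _ _ _

/-- The Lie algebra homomorphism `f∂ ↦ ` (vector field on the symmetric square). -/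
noncomputable def phiLie : VF d →ₗ⁅ℂ⁆ G.A where
  toFun f := ⟨(Y.der f.coef : S →ₗ[ℂ] S), Y.der_mem _⟩
  map_add' f g := by
    apply G.ext'
    intro x
    change Y.der (f.coef + g.coef) x = Y.der f.coef x + Y.der g.coef x
    simp only [der_apply, map_add, QuadraticAlgebra.re_add, QuadraticAlgebra.im_add]
    ring
  map_smul' c f := by
    apply G.ext'
    intro x
    change Y.der (c • f.coef) x = c • Y.der f.coef x
    simp only [der_apply, map_smul, QuadraticAlgebra.re_smul, QuadraticAlgebra.im_smul,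
      mul_smul_comm, smul_mul_assoc, ← smul_add]
  map_lie' := by
    intro f g
    apply G.ext'
    intro x
    change Y.der (f.coef * d g.coef - d f.coef * g.coef) x =
      Y.der f.coef (Y.der g.coef x) - Y.der g.coef (Y.der f.coef x)
    exact (LF_lie (G.D 0) (G.D 1) Y.hss hsp hps Y.hpp (G.D_comm 0 1) Y.ev Y.hU f.coef g.coef x).symm

/-- The algebra homomorphism `U(R∂) → A`. -/
noncomputable def phi : UniversalEnvelopingAlgebra ℂ (VF d) →ₐ[ℂ] G.A :=
  UniversalEnvelopingAlgebra.lift ℂ Y.phiLie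

theorem phi_ι_apply (f : R) (x : S) :
    (Y.phi (UniversalEnvelopingAlgebra.ι ℂ (VF.of d f)) : Module.End ℂ S) x = Y.der f x := by
  rw [phi, UniversalEnvelopingAlgebra.lift_ι_apply]
  rfl

end SymSq

/-- The main non-factorisation statement. -/
theorem no_factor {R : Type} [CommRing R] [Algebra ℂ R] {d : Derivation ℂ R R} {S : Type}
    [CommRing S] [Algebra ℂ S] [IsDomain S] {G : Geo d 2 S} {t : R} (Y : SymSq G t)
    (hA : G.A ≤ Algebra.adjoin ℂ (Set.range (Algebra.lmul ℂ S) ∪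
      {(G.D 0 : S →ₗ[ℂ] S), (G.D 1 : S →ₗ[ℂ] S)}))
    (hΔ : (G.e 0 t) ^ 2 - 4 * (G.e 1 t) ≠ 0)
    (hK : ∀ (w : S) (j : ℕ), Core.L0 (G.D 0) (G.D 1) (G.e 0 t) w = 0 →
      Core.L1 (G.D 0) (G.D 1) (G.e 0 t) (G.e 1 t) w = (2 * j + 1) * w → w = 0)
    {ℓ : ℕ} {S' : Type} [CommRing S'] [Algebra ℂ S'] (G' : Geo d ℓ S') (n : Fin ℓ → ℕ)
    (ψ : (G'.A ⊗[ℂ] UU n) →+* G.A)
    (h : (Y.phi : UniversalEnvelopingAlgebra ℂ (VF d) →+* G.A) =
      ψ.comp (G'.Psi n : UniversalEnvelopingAlgebra ℂ (VF d) →+* (G'.A ⊗[ℂ] UU n))) : False := by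
  have hval : ∀ f : VF d, Y.phi (UniversalEnvelopingAlgebra.ι ℂ f) =
      ψ (G'.Psi n (UniversalEnvelopingAlgebra.ι ℂ f)) := fun f => by
    have := congrArg (fun k => k (UniversalEnvelopingAlgebra.ι ℂ f)) h
    exact this
  have hchar : CharZero S := charZero_of_injective_algebraMap (algebraMap ℂ S).injective
  have hev1 : (Y.ev 1) = 1 := map_one _
  have hd0 : ∀ x, Y.der 1 x = Core.L0 (G.D 0) (G.D 1) (G.e 0 t) x := by
    intro x
    rw [Y.der_apply, hev1]
    simp [Core.L0, QuadraticAlgebra.re_one, QuadraticAlgebra.im_one]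
  have hd1 : ∀ x, Y.der t x = Core.L1 (G.D 0) (G.D 1) (G.e 0 t) (G.e 1 t) x := by
    intro x
    rw [Y.der_apply, Y.ev_t]
    simp [Core.L1]
  have hd2 : ∀ x, Y.der (t ^ 2) x = Core.L2 (G.D 0) (G.D 1) (G.e 0 t) (G.e 1 t) x := by
    intro x
    rw [Y.der_apply, map_pow, Y.ev_t, pow_two]
    simp only [Core.L2, Derivation.add_apply, Derivation.smul_apply, smul_eq_mul]
    have e1 : ((⟨0, 1⟩ : QQ (G.e 0 t) (G.e 1 t)) * ⟨0, 1⟩) = ⟨-(G.e 1 t), G.e 0 t⟩ := by
      ext <;> simp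
    rw [e1]
    ring
  rcases Nat.eq_zero_or_pos ℓ with h0 | hpos
  · subst h0
    have h1 := hval (VF.of d 1)
    rw [Geo.Psi_ι, Finset.univ_eq_empty, Finset.sum_empty, map_zero] at h1
    have h2 := congrArg (fun a : G.A => (a : Module.End ℂ S) (G.e 0 t)) h1
    simp only [Y.phi_ι_apply, hd0] at h2
    have h3 : Core.L0 (G.D 0) (G.D 1) (G.e 0 t) (G.e 0 t) = 2 := by
      simp [Core.L0, Y.hss, SymSq.hps]
    rw [h3] at h2
    exact two_ne_zero h2
  · let c : Fin ℓ := ⟨0, hpos⟩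
    set T : G.A := ψ (G'.J n c t) with hT
    have key : ∀ f : R, Y.phi (UniversalEnvelopingAlgebra.ι ℂ (VF.of d f)) * T -
        T * Y.phi (UniversalEnvelopingAlgebra.ι ℂ (VF.of d f)) = ψ (G'.J n c f) := by
      intro f
      have h1 := congrArg ψ (G'.Psi_comm n c (VF.of d f) t)
      rw [map_sub, map_mul, map_mul, ← hval, VF.coef_of, Y.ht, mul_one] at h1
      exact h1
    have keyx : ∀ (f : R) (x : S), Y.der f ((T : Module.End ℂ S) x) -
        (T : Module.End ℂ S) (Y.der f x) = (ψ (G'.J n c f) : Module.End ℂ S) x := by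
      intro f x
      have h1 := congrArg (fun a : G.A => (a : Module.End ℂ S) x) (key f)
      rw [← h1]
      change _ = (Y.phi (UniversalEnvelopingAlgebra.ι ℂ (VF.of d f)) : Module.End ℂ S)
        ((T : Module.End ℂ S) x) - (T : Module.End ℂ S)
        ((Y.phi (UniversalEnvelopingAlgebra.ι ℂ (VF.of d f)) : Module.End ℂ S) x)
      rw [Y.phi_ι_apply, Y.phi_ι_apply]
    refine Core.core (G.D 0) (G.D 1) (G.e 0 t) (G.e 1 t) Y.hss SymSq.hsp SymSq.hps Y.hpp hΔ hK
      (T : Module.End ℂ S) (hA T.2) ?_ ?_ ?_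
    · intro x
      rw [← hd0, ← hd0, keyx, map_one, map_one]
      rfl
    · intro x
      rw [← hd1, ← hd1, keyx]
    · intro x
      rw [← hd2, ← hd2, keyx, map_pow, map_pow, pow_two]
      rfl

end Pool.Agent.Q113.WF
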