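import Mathlib
import Pool.Agent.Q113.WF.Phi

/-!
The Laurent polynomial case.
-/

set_option autoImplicit false

open scoped TensorProduct DirectSum

namespace Pool.Agent.Q113.WF

attribute [local instance 100] LieRing.ofAssociativeRing

section euler

variable {M : Type} [AddCommMonoid M] (χ : M →+ ℂ)

/-- The linear map `x^m ↦ χ(m) x^m` of the monoid algebra. -/
noncomputable def eulerLin : AddMonoidAlgebra ℂ M →ₗ[ℂ] AddMonoidAlgebra ℂ M where
  toFun x := AddMonoidAlgebra.ofCoeff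
    (Finsupp.onFinset x.coeff.support (fun m => χ m * x.coeff m) (fun m h => by
      rw [Finsupp.mem_support_iff]
      intro h0
      rw [h0, mul_zero] at h
      exact h rfl))
  map_add' x y := by
    apply AddMonoidAlgebra.ext
    ext m
    simp [mul_add]
  map_smul' c x := by
    apply AddMonoidAlgebra.ext
    ext m
    simp
    ring

theorem coeff_eulerLin (x : AddMonoidAlgebra ℂ M) (m : M) :
    (eulerLin χ x).coeff m = χ m * x.coeff m := rfl

theorem eulerLin_single (m : M) (r : ℂ) :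
    eulerLin χ (AddMonoidAlgebra.single m r) = AddMonoidAlgebra.single m (χ m * r) := by
  classical
  apply AddMonoidAlgebra.ext
  ext m'
  rw [coeff_eulerLin, AddMonoidAlgebra.coeff_single, AddMonoidAlgebra.coeff_single,
    Finsupp.single_apply, Finsupp.single_apply]
  split_ifs with h
  · rw [h]
  · rw [mul_zero]

/-- The derivation `x^m ↦ χ(m) x^m` of the monoid algebra. -/
noncomputable def euler : Derivation ℂ (AddMonoidAlgebra ℂ M) (AddMonoidAlgebra ℂ M) :=
  Derivation.mk' (eulerLin χ) (by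
    intro x y
    induction x using AddMonoidAlgebra.induction_linear with
    | zero => simp
    | add x x' hx hx' =>
      simp only [add_mul, map_add, hx, hx', smul_eq_mul, mul_add]
      abel
    | single m r =>
      induction y using AddMonoidAlgebra.induction_linear with
      | zero => simp
      | add y y' hy hy' =>
        simp only [mul_add, map_add, hy, hy', smul_eq_mul, add_mul]
        abel
      | single m' r' =>
        rw [AddMonoidAlgebra.single_mul_single, eulerLin_single, eulerLin_single, eulerLin_single,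
          smul_eq_mul, smul_eq_mul, AddMonoidAlgebra.single_mul_single,
          AddMonoidAlgebra.single_mul_single, add_comm m' m, ← AddMonoidAlgebra.single_add, map_add]
        congr 1
        ring)

theorem coeff_euler (x : AddMonoidAlgebra ℂ M) (m : M) :
    (euler χ x).coeff m = χ m * x.coeff m := rfl

theorem euler_single (m : M) (r : ℂ) :
    euler χ (AddMonoidAlgebra.single m r) = AddMonoidAlgebra.single m (χ m * r) :=
  eulerLin_single χ m r

end euler

/-- The ring `ℂ[t, t⁻¹]`. -/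
abbrev L1 : Type := AddMonoidAlgebra ℂ ℤ

/-- The derivation `d/dt` of `ℂ[t, t⁻¹]`: `t^m ↦ m t^(m-1)`. -/
noncomputable def dL : Derivation ℂ L1 L1 :=
  (AddMonoidAlgebra.single (-1 : ℤ) (1 : ℂ)) • euler (Int.castAddHom ℂ)

theorem dL_single (m : ℤ) (r : ℂ) :
    dL (AddMonoidAlgebra.single m r) = AddMonoidAlgebra.single (m - 1) (m * r) := by
  rw [dL, Derivation.smul_apply, euler_single, smul_eq_mul, AddMonoidAlgebra.single_mul_single,
    one_mul, neg_add_eq_sub]
  rfl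

/-- The Witt algebra `W = ℂ[t, t⁻¹]∂`. -/
def Witt : Type := VF dL

noncomputable instance : LieRing Witt := (inferInstance : LieRing (VF dL))
noncomputable instance : LieAlgebra ℂ Witt := (inferInstance : LieAlgebra ℂ (VF dL))

/-- The vector field `f∂`. -/
noncomputable def Witt.of (f : L1) : Witt := VF.of dL f

/-- The ring `ℂ[t_1^{±1}, …, t_ℓ^{±1}]`; `AddMonoidAlgebra.single m 1` is the monomial `t^m`. -/
abbrev RL (ℓ : ℕ) : Type := AddMonoidAlgebra ℂ (Fin ℓ → ℤ)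

/-- The character `m ↦ m_i`. -/
def chi {ℓ : ℕ} (i : Fin ℓ) : (Fin ℓ → ℤ) →+ ℂ := (Int.castAddHom ℂ).comp (Pi.evalAddMonoidHom _ i)

theorem chi_apply {ℓ : ℕ} (i : Fin ℓ) (m : Fin ℓ → ℤ) : chi i m = (m i : ℂ) := rfl

/-- The derivation `∂_i` of `ℂ[t_1^{±1}, …, t_ℓ^{±1}]`: `t^m ↦ m_i t^m t_i^{-1}`. -/
noncomputable def dd {ℓ : ℕ} (i : Fin ℓ) : Derivation ℂ (RL ℓ) (RL ℓ) :=
  (AddMonoidAlgebra.single (-(Pi.single i 1) : Fin ℓ → ℤ) (1 : ℂ)) • euler (chi i)

theorem dd_single {ℓ : ℕ} (i : Fin ℓ) (m : Fin ℓ → ℤ) (r : ℂ) :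
    dd i (AddMonoidAlgebra.single m r) =
      AddMonoidAlgebra.single (m - Pi.single i 1) ((m i : ℂ) * r) := by
  rw [dd, Derivation.smul_apply, euler_single, smul_eq_mul, AddMonoidAlgebra.single_mul_single,
    one_mul, neg_add_eq_sub, chi_apply]

/-- The algebra generated by `t_i^{±1}` and `∂_i`, `i = 1, …, ℓ`, acting on
`ℂ[t_1^{±1}, …, t_ℓ^{±1}]`. -/
noncomputable def LWeyl (ℓ : ℕ) : Subalgebra ℂ (Module.End ℂ (RL ℓ)) :=
  Algebra.adjoin ℂ
    (Set.range (fun i : Fin ℓ =>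
        Algebra.lmul ℂ (RL ℓ) (AddMonoidAlgebra.single (Pi.single i 1 : Fin ℓ → ℤ) (1 : ℂ))) ∪
      Set.range (fun i : Fin ℓ =>
        Algebra.lmul ℂ (RL ℓ) (AddMonoidAlgebra.single (-(Pi.single i 1) : Fin ℓ → ℤ) (1 : ℂ))) ∪
      Set.range (fun i : Fin ℓ => (dd i : RL ℓ →ₗ[ℂ] RL ℓ)))

theorem LWeyl_mul (ℓ : ℕ) (a : RL ℓ) : Algebra.lmul ℂ (RL ℓ) a ∈ LWeyl ℓ := by
  let H : AddSubgroup (Fin ℓ → ℤ) :=
    { carrier := {m | Algebra.lmul ℂ (RL ℓ) (AddMonoidAlgebra.single m (1 : ℂ)) ∈ LWeyl ℓ ∧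
        Algebra.lmul ℂ (RL ℓ) (AddMonoidAlgebra.single (-m) (1 : ℂ)) ∈ LWeyl ℓ}
      add_mem' := by
        rintro m m' ⟨h1, h2⟩ ⟨h1', h2'⟩
        constructor
        · have := mul_mem h1 h1'
          rw [← map_mul, AddMonoidAlgebra.single_mul_single, one_mul] at this
          exact this
        · have := mul_mem h2 h2'
          rw [← map_mul, AddMonoidAlgebra.single_mul_single, one_mul, ← neg_add] at this
          exact this
      zero_mem' := by
        have h : Algebra.lmul ℂ (RL ℓ) (AddMonoidAlgebra.single (0 : Fin ℓ → ℤ) (1 : ℂ)) = 1 := by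
          have h0 : (AddMonoidAlgebra.single (0 : Fin ℓ → ℤ) (1 : ℂ)) = (1 : RL ℓ) := rfl
          rw [h0, map_one]
        constructor
        · rw [h]; exact one_mem _
        · rw [neg_zero, h]; exact one_mem _
      neg_mem' := by
        rintro m ⟨h1, h2⟩
        exact ⟨h2, by rw [neg_neg]; exact h1⟩ }
  have hH : ∀ m, m ∈ H := by
    intro m
    have hm : m = ∑ i, m i • (Pi.single i 1 : Fin ℓ → ℤ) := by
      ext k
      simp [Finset.sum_apply, Pi.single_apply]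
    rw [hm]
    refine sum_mem fun i _ => H.zsmul_mem ?_ _
    exact ⟨Algebra.subset_adjoin (Or.inl (Or.inl ⟨i, rfl⟩)),
      Algebra.subset_adjoin (Or.inl (Or.inr ⟨i, rfl⟩))⟩
  induction a using AddMonoidAlgebra.induction_linear with
  | zero => rw [map_zero]; exact zero_mem _
  | add x y hx hy => rw [map_add]; exact add_mem hx hy
  | single m r =>
    have h : (AddMonoidAlgebra.single m r : RL ℓ) = r • AddMonoidAlgebra.single m 1 := by
      rw [AddMonoidAlgebra.smul_single, smul_eq_mul, mul_one]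
    rw [h, map_smul]
    exact Subalgebra.smul_mem _ (hH m).1 r

theorem dd_comm {ℓ : ℕ} (i k : Fin ℓ) (x : RL ℓ) : dd i (dd k x) = dd k (dd i x) := by
  induction x using AddMonoidAlgebra.induction_linear with
  | zero => simp
  | add x y hx hy => simp only [map_add, hx, hy]
  | single m r =>
    rw [dd_single, dd_single, dd_single, dd_single]
    by_cases h : i = k
    · subst h; rfl
    · congr 1
      · abel
      · simp only [Pi.sub_apply, Pi.single_apply, if_neg h, if_neg (Ne.symm h), sub_zero]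
        ring

/-- `f ↦ f(t_c)` -/
noncomputable def eL {ℓ : ℕ} (c : Fin ℓ) : L1 →ₐ[ℂ] RL ℓ :=
  AddMonoidAlgebra.mapDomainAlgHom ℂ ℂ (AddMonoidHom.single (fun _ : Fin ℓ => ℤ) c)

theorem eL_single {ℓ : ℕ} (c : Fin ℓ) (m : ℤ) (r : ℂ) :
    eL c (AddMonoidAlgebra.single m r) = AddMonoidAlgebra.single (Pi.single c m : Fin ℓ → ℤ) r := by
  rw [eL]
  exact AddMonoidAlgebra.mapDomain_single

/-- Differential operators on the torus. -/
noncomputable def lauGeo (ℓ : ℕ) : Geo dL ℓ (RL ℓ) where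
  e c := eL c
  D c := dd c
  D_e i c f := by
    induction f using AddMonoidAlgebra.induction_linear with
    | zero => simp
    | add x y hx hy =>
      simp only [map_add, hx, hy]
      split_ifs
      · rfl
      · rw [add_zero]
    | single m r =>
      rw [eL_single, dd_single]
      split_ifs with h
      · subst h
        rw [dL_single, eL_single, Pi.single_eq_same]
        congr 1
        rw [← Pi.single_sub]
      · rw [Pi.single_eq_of_ne h, Int.cast_zero, zero_mul, AddMonoidAlgebra.single_zero]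
  D_comm i k x := dd_comm i k x
  A := LWeyl ℓ
  mem_mul := LWeyl_mul ℓ
  mem_D c := Algebra.subset_adjoin (Or.inr ⟨c, rfl⟩)

section SymL

/-- the coordinate `t` of the line -/
noncomputable def tL : L1 := AddMonoidAlgebra.single (1 : ℤ) (1 : ℂ)

theorem e_tL (c : Fin 2) : (lauGeo 2).e c tL = AddMonoidAlgebra.single (Pi.single c 1) 1 :=
  eL_single c 1 1

/-- `p⁻¹` -/
noncomputable def pinv : RL 2 := AddMonoidAlgebra.single (-(Pi.single 1 1)) 1

theorem p_pinv : (lauGeo 2).e 1 tL * pinv = 1 := by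
  rw [e_tL, pinv, AddMonoidAlgebra.single_mul_single, add_neg_cancel, one_mul]
  rfl

/-- the unit `ω` -/
noncomputable def omega : (QQ ((lauGeo 2).e 0 tL) ((lauGeo 2).e 1 tL))ˣ where
  val := ⟨0, 1⟩
  inv := ⟨(lauGeo 2).e 0 tL * pinv, -pinv⟩
  val_inv := by
    have h := p_pinv
    refine QuadraticAlgebra.ext ?_ ?_
    · simp only [QuadraticAlgebra.re_mul, QuadraticAlgebra.re_one]
      linear_combination h
    · simp only [QuadraticAlgebra.im_mul, QuadraticAlgebra.im_one]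
      ring
  inv_val := by
    have h := p_pinv
    refine QuadraticAlgebra.ext ?_ ?_
    · simp only [QuadraticAlgebra.re_mul, QuadraticAlgebra.re_one]
      linear_combination h
    · simp only [QuadraticAlgebra.im_mul, QuadraticAlgebra.im_one]
      ring

/-- evaluation at `ω` -/
noncomputable def evL : L1 →ₐ[ℂ] QQ ((lauGeo 2).e 0 tL) ((lauGeo 2).e 1 tL) :=
  AddMonoidAlgebra.lift ℂ _ ℤ ((Units.coeHom _).comp (zpowersHom _ omega))

theorem evL_single (m : ℤ) (r : ℂ) : evL (AddMonoidAlgebra.single m r) =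
    r • ((omega ^ m : (QQ ((lauGeo 2).e 0 tL) ((lauGeo 2).e 1 tL))ˣ) :
      QQ ((lauGeo 2).e 0 tL) ((lauGeo 2).e 1 tL)) := by
  rw [evL, AddMonoidAlgebra.lift_single]
  rfl

theorem der_zpow {B : Type} [CommRing B] [Algebra ℂ B] (Z : Derivation ℂ B B) (u : Bˣ) (n : ℤ) :
    Z ((u ^ n : Bˣ) : B) = (n : B) * ((u ^ (n - 1) : Bˣ) : B) * Z (u : B) := by
  induction n using Int.induction_on with
  | zero => simp
  | succ n ih =>
    have h : ((u ^ ((n : ℤ) + 1) : Bˣ) : B) = ((u ^ (n : ℤ) : Bˣ) : B) * (u : B) := by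
      rw [zpow_add_one, Units.val_mul]
    have h2 : ((u ^ (n : ℤ) : Bˣ) : B) = ((u ^ ((n : ℤ) - 1) : Bˣ) : B) * (u : B) := by
      rw [← Units.val_mul, ← zpow_add_one, sub_add_cancel]
    rw [h, Z.leibniz, ih, smul_eq_mul, smul_eq_mul, add_sub_cancel_right]
    push_cast
    linear_combination (-(n : B) * Z (u : B)) * h2
  | pred n ih =>
    have h : ((u ^ (-(n : ℤ)) : Bˣ) : B) = ((u ^ (-(n : ℤ) - 1) : Bˣ) : B) * (u : B) := by
      rw [← Units.val_mul, ← zpow_add_one, sub_add_cancel]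
    have h2 : ((u ^ (-(n : ℤ) - 1) : Bˣ) : B) = ((u ^ (-(n : ℤ) - 1 - 1) : Bˣ) : B) * (u : B) := by
      rw [← Units.val_mul, ← zpow_add_one, sub_add_cancel]
    have h3 := ih
    rw [h, Z.leibniz, smul_eq_mul, smul_eq_mul] at h3
    have h4 : (u : B) * Z ((u ^ (-(n : ℤ) - 1) : Bˣ) : B) =
        (u : B) * (((-(n : ℤ) - 1 : ℤ) : B) * ((u ^ (-(n : ℤ) - 1 - 1) : Bˣ) : B) * Z (u : B)) := by
      push_cast at h3 ⊢
      linear_combination h3 + (-(n : B) - 1) * Z (u : B) * h2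
    exact u.isUnit.mul_left_cancel h4

/-- The evaluation at the root `ω` of `X² - sX + p`. -/
noncomputable def lauSym : SymSq (lauGeo 2) tL where
  ht := by
    rw [tL, dL_single, sub_self, Int.cast_one, one_mul]
    rfl
  ev := evL
  ev_t := by
    have h := evL_single 1 1
    rw [one_smul, zpow_one] at h
    exact h
  hU Z f := by
    induction f using AddMonoidAlgebra.induction_linear with
    | zero => simp
    | add x y hx hy => simp only [map_add, hx, hy, add_mul]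
    | single m r =>
      rw [evL_single, dL_single, evL_single, Derivation.map_smul, der_zpow]
      have h : ((omega : (QQ ((lauGeo 2).e 0 tL) ((lauGeo 2).e 1 tL))ˣ) :
        QQ ((lauGeo 2).e 0 tL) ((lauGeo 2).e 1 tL)) = ⟨0, 1⟩ := rfl
      rw [h, mul_comm (m : ℂ) r, mul_smul, smul_mul_assoc]
      congr 2
      rw [Algebra.smul_def, map_intCast]

end SymL

section K

theorem lauK (w : RL 2) (j : ℕ)
    (h0 : Core.L0 ((lauGeo 2).D 0) ((lauGeo 2).D 1) ((lauGeo 2).e 0 tL) w = 0)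
    (h1 : Core.L1 ((lauGeo 2).D 0) ((lauGeo 2).D 1) ((lauGeo 2).e 0 tL)
      ((lauGeo 2).e 1 tL) w = (2 * j + 1) * w) : w = 0 := by
  rw [e_tL] at h0
  rw [e_tL, e_tL] at h1
  simp only [Core.L0, Core.L1, Derivation.add_apply, Derivation.smul_apply, smul_eq_mul] at h0 h1
  change (2 : RL 2) * dd 0 w + AddMonoidAlgebra.single (Pi.single 0 1) 1 * dd 1 w = 0 at h0
  change AddMonoidAlgebra.single (Pi.single 0 1) 1 * dd 0 w +
    (2 : RL 2) * AddMonoidAlgebra.single (Pi.single 1 1) 1 * dd 1 w =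
      ((2 : RL 2) * (j : RL 2) + 1) * w at h1
  have cD : ∀ (i : Fin 2) (m : Fin 2 → ℤ), (dd i w).coeff m =
      ((m i + 1 : ℤ) : ℂ) * w.coeff (m + Pi.single i 1) := by
    intro i m
    rw [dd, Derivation.smul_apply, smul_eq_mul, AddMonoidAlgebra.coeff_single_mul_apply, coeff_euler,
      neg_neg, one_mul, chi_apply, add_comm (Pi.single i 1) m]
    simp
  have c2 : ∀ (x : RL 2) (m : Fin 2 → ℤ), ((2 : RL 2) * x).coeff m = 2 * x.coeff m := by
    intro x m
    rw [two_mul, two_mul]; rfl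
  have hcD0 : ∀ m, ((m 0 : ℤ) : ℂ) * w.coeff m + 2 * (((m 1 : ℤ) : ℂ) * w.coeff m) =
      (2 * j + 1) * w.coeff m := by
    intro m
    have h := congrArg (fun x : RL 2 => x.coeff m) h1
    have e1 : (((2 : RL 2) * (j : RL 2) + 1) * w).coeff m = (2 * j + 1) * w.coeff m := by
      have : ((2 : RL 2) * (j : RL 2) + 1) * w = ((2 * j + 1 : ℕ)) • w := by
        rw [nsmul_eq_mul]; push_cast; rfl
      rw [this]
      have h3 : ((2 * j + 1 : ℕ) • w).coeff m = (2 * j + 1 : ℕ) • (w.coeff m) := rfl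
      rw [h3, nsmul_eq_mul]; push_cast; rfl
    rw [e1, AddMonoidAlgebra.coeff_add, Finsupp.add_apply, mul_assoc, c2,
      AddMonoidAlgebra.coeff_single_mul_apply, AddMonoidAlgebra.coeff_single_mul_apply, cD, cD] at h
    have a0 : -(Pi.single 0 1 : Fin 2 → ℤ) + m + Pi.single 0 1 = m := by abel
    have a1 : -(Pi.single 1 1 : Fin 2 → ℤ) + m + Pi.single 1 1 = m := by abel
    rw [a0, a1] at h
    simp only [Pi.add_apply, Pi.neg_apply, Pi.single_eq_same, one_mul] at h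
    have b0 : (-1 + m 0 + 1 : ℤ) = m 0 := by ring
    have b1 : (-1 + m 1 + 1 : ℤ) = m 1 := by ring
    rw [b0, b1] at h
    exact h
  have hcD1 : ∀ m : Fin 2 → ℤ, 2 * (((m 0 + 1 : ℤ) : ℂ) * w.coeff (m + Pi.single 0 1)) +
      ((m 1 + 1 : ℤ) : ℂ) * w.coeff (m - Pi.single 0 1 + Pi.single 1 1) = 0 := by
    intro m
    have h := congrArg (fun x : RL 2 => x.coeff m) h0
    rw [AddMonoidAlgebra.coeff_add, Finsupp.add_apply, c2,
      AddMonoidAlgebra.coeff_single_mul_apply, cD, cD, one_mul, neg_add_eq_sub] at h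
    rw [AddMonoidAlgebra.coeff_zero, Finsupp.zero_apply] at h
    have a1 : (m - (Pi.single 0 1 : Fin 2 → ℤ)) 1 = m 1 := by simp
    rw [a1] at h
    exact h
  by_contra hw
  have hne : w.coeff.support.Nonempty := by
    rw [Finsupp.support_nonempty_iff]
    intro h; exact hw (AddMonoidAlgebra.coeff_eq_zero.mp h)
  obtain ⟨m, hm, hmax⟩ := Finset.exists_max_image w.coeff.support (fun m => m 1) hne
  have hm0 : w.coeff m ≠ 0 := Finsupp.mem_support_iff.mp hm
  have hwt : ((m 0 : ℤ) : ℂ) + 2 * ((m 1 : ℤ) : ℂ) = 2 * j + 1 := by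
    apply mul_right_cancel₀ hm0
    linear_combination hcD0 m
  have hwt' : m 0 + 2 * m 1 = 2 * j + 1 := by exact_mod_cast hwt
  have hne0 : m 0 ≠ 0 := by omega
  have h3 := hcD1 (m - Pi.single 0 1)
  have a2 : (m - (Pi.single 0 1 : Fin 2 → ℤ)) 0 + 1 = m 0 := by simp
  rw [sub_add_cancel, a2] at h3
  have h4 : w.coeff (m - Pi.single 0 1 - Pi.single 0 1 + Pi.single 1 1) = 0 := by
    by_contra hne
    have := hmax _ (Finsupp.mem_support_iff.mpr hne)
    simp at this
  rw [h4, mul_zero, add_zero] at h3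
  have h5 : ((m 0 : ℤ) : ℂ) ≠ 0 := by exact_mod_cast hne0
  exact (mul_ne_zero two_ne_zero (mul_ne_zero h5 hm0)) h3

end K

/-- The enveloping algebra `U(W)`. -/
def UW : Type := UniversalEnvelopingAlgebra ℂ Witt

noncomputable instance : Ring UW := (inferInstance : Ring (UniversalEnvelopingAlgebra ℂ Witt))
noncomputable instance : Algebra ℂ UW :=
  (inferInstance : Algebra ℂ (UniversalEnvelopingAlgebra ℂ Witt))

/-- The element `f∂` of `U(W)`. -/
noncomputable def UW.ι (f : L1) : UW := UniversalEnvelopingAlgebra.ι ℂ (Witt.of f)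

/-- The localised Weyl algebra `Ã_ℓ` as a type. -/
def LA (ℓ : ℕ) : Type := LWeyl ℓ

noncomputable instance (ℓ : ℕ) : Ring (LA ℓ) := (inferInstance : Ring (LWeyl ℓ))
noncomputable instance (ℓ : ℕ) : Algebra ℂ (LA ℓ) := (inferInstance : Algebra ℂ (LWeyl ℓ))

/-- The element `f(t_c)` of `Ã_ℓ`. -/
noncomputable def LA.mul {ℓ : ℕ} (c : Fin ℓ) (f : L1) : LA ℓ :=
  ⟨Algebra.lmul ℂ _ (eL c f), LWeyl_mul ℓ _⟩

theorem LWeyl_d {ℓ : ℕ} (c : Fin ℓ) : (dd c : RL ℓ →ₗ[ℂ] RL ℓ) ∈ LWeyl ℓ :=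
  Algebra.subset_adjoin (Or.inr ⟨c, rfl⟩)

/-- The element `∂_c` of `Ã_ℓ`. -/
noncomputable def LA.d {ℓ : ℕ} (c : Fin ℓ) : LA ℓ := ⟨(dd c : RL ℓ →ₗ[ℂ] RL ℓ), LWeyl_d c⟩

/-- The algebra `Ã_ℓ ⊗ U(g_𝐧)`. -/
def LTgt {ℓ : ℕ} (n : Fin ℓ → ℕ) : Type := LA ℓ ⊗[ℂ] U n

noncomputable instance {ℓ : ℕ} (n : Fin ℓ → ℕ) : Ring (LTgt n) :=
  (inferInstance : Ring (LA ℓ ⊗[ℂ] U n))
noncomputable instance {ℓ : ℕ} (n : Fin ℓ → ℕ) : Algebra ℂ (LTgt n) :=
  (inferInstance : Algebra ℂ (LA ℓ ⊗[ℂ] U n))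

/-- The element `a ⊗ u` of `Ã_ℓ ⊗ U(g_𝐧)`. -/
noncomputable def LTgt.mk {ℓ : ℕ} {n : Fin ℓ → ℕ} (a : LA ℓ) (u : U n) : LTgt n := a ⊗ₜ[ℂ] u

/-- `Ψ` is the homomorphism `Ψ_𝐧`:
`Ψ(f∂) = ∑_c (f(t_c)∂_c ⊗ 1 + ∑_{i < n_c} f^{(i+1)}(t_c)/(i+1)! ⊗ v_i)` for all `f`. -/
def IsPsiL {ℓ : ℕ} (n : Fin ℓ → ℕ) (Ψ : UW →ₐ[ℂ] LTgt n) : Prop :=
  ∀ f : L1, Ψ (UW.ι f) =
    ∑ c, (LTgt.mk (LA.mul c f * LA.d c) 1 + ∑ i ∈ Finset.range (n c),
      LTgt.mk (LA.mul c ((((i + 1).factorial : ℂ)⁻¹) • (dL^[i + 1] f))) (vU n c i))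

/-- The homomorphism `U(W) → Ã₂` given by the action on the symmetric square of the punctured line. -/
noncomputable def phiLau : UW →ₐ[ℂ] LA 2 := lauSym.phi

/-- The homomorphism `Ψ_𝐧 : U(W) → Ã_ℓ ⊗ U(g_𝐧)`. -/
noncomputable def PsiLau {ℓ : ℕ} (n : Fin ℓ → ℕ) : UW →ₐ[ℂ] LTgt n := (lauGeo ℓ).Psi n

theorem isPsi_PsiLau {ℓ : ℕ} (n : Fin ℓ → ℕ) : IsPsiL n (PsiLau n) := by
  intro f
  refine ((lauGeo ℓ).Psi_ι n (VF.of _ f)).trans ?_
  refine Finset.sum_congr rfl fun c _ => ?_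
  simp only [Geo.psiC, psi1, Geo.J_apply, Geo.PP, Geo.VV, Algebra.TensorProduct.tmul_mul_tmul,
    one_mul, mul_one, VF.coef_of]
  rfl

/-- There is a homomorphism `U(W) → Ã₂` which does not factor through any `Ψ_𝐧` (for any number
`ℓ` of variables). -/
theorem lau_main {ℓ : ℕ} (n : Fin ℓ → ℕ) (ψ : LTgt n →+* LA 2) :
    phiLau.toRingHom ≠ ψ.comp (PsiLau n).toRingHom := by
  intro h
  refine no_factor lauSym ?_ ?_ lauK (lauGeo ℓ) n ψ h
  · refine Algebra.adjoin_le ?_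
    rintro _ ((⟨i, rfl⟩ | ⟨i, rfl⟩) | ⟨i, rfl⟩)
    · exact Algebra.subset_adjoin (Or.inl ⟨_, rfl⟩)
    · exact Algebra.subset_adjoin (Or.inl ⟨_, rfl⟩)
    · fin_cases i
      · exact Algebra.subset_adjoin (Or.inr (Or.inl rfl))
      · exact Algebra.subset_adjoin (Or.inr (Or.inr rfl))
  · rw [e_tL, e_tL]
    intro h
    have h2 := congrArg (fun x : RL 2 => x.coeff (Pi.single 0 2)) h
    have e4 : ((4 : RL 2) * AddMonoidAlgebra.single (Pi.single 1 1) 1) =
        AddMonoidAlgebra.single (Pi.single 1 1) (4 : ℂ) := by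
      have : (4 : RL 2) = (4 : ℕ) := by norm_cast
      rw [this, ← nsmul_eq_mul, AddMonoidAlgebra.smul_single]
      simp
    rw [e4, pow_two, AddMonoidAlgebra.single_mul_single, AddMonoidAlgebra.coeff_sub,
      AddMonoidAlgebra.coeff_single, AddMonoidAlgebra.coeff_single, Finsupp.sub_apply,
      AddMonoidAlgebra.coeff_zero, Finsupp.zero_apply, ← Pi.single_add] at h2
    have h5 : (Pi.single (1 : Fin 2) (1 : ℤ) : Fin 2 → ℤ) ≠ Pi.single (0 : Fin 2) (2 : ℤ) := by
      intro h6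
      have := congrFun h6 1
      simp at this
    rw [Finsupp.single_eq_of_ne h5.symm] at h2
    simp at h2

end Pool.Agent.Q113.WF
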