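import Mathlib
import Pool.Agent.Q113.WF.Phi

/-!
The polynomial case.
-/

set_option autoImplicit false

open scoped TensorProduct DirectSum

namespace Pool.Agent.Q113.WF

attribute [local instance 100] LieRing.ofAssociativeRing

/-- The `ℓ`-th Weyl algebra, as the algebra of differential operators on `ℂ[t_1, …, t_ℓ]` generated by
the multiplications by the variables `t_i` and the partial derivatives `∂_i`. -/
noncomputable def Weyl (ℓ : ℕ) : Subalgebra ℂ (Module.End ℂ (MvPolynomial (Fin ℓ) ℂ)) :=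
  Algebra.adjoin ℂ
    (Set.range (fun i : Fin ℓ => Algebra.lmul ℂ (MvPolynomial (Fin ℓ) ℂ) (MvPolynomial.X i)) ∪
      Set.range (fun i : Fin ℓ =>
        ((MvPolynomial.pderiv i : Derivation ℂ _ _) :
          MvPolynomial (Fin ℓ) ℂ →ₗ[ℂ] MvPolynomial (Fin ℓ) ℂ)))

theorem Weyl_mul (ℓ : ℕ) (a : MvPolynomial (Fin ℓ) ℂ) :
    Algebra.lmul ℂ (MvPolynomial (Fin ℓ) ℂ) a ∈ Weyl ℓ := by
  induction a using MvPolynomial.induction_on with
  | C c =>
    have h : Algebra.lmul ℂ (MvPolynomial (Fin ℓ) ℂ) (MvPolynomial.C c) =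
        algebraMap ℂ (Module.End ℂ (MvPolynomial (Fin ℓ) ℂ)) c :=
      (Algebra.lmul ℂ (MvPolynomial (Fin ℓ) ℂ)).commutes c
    rw [h]
    exact Subalgebra.algebraMap_mem _ _
  | add p q hp hq => rw [map_add]; exact add_mem hp hq
  | mul_X p i hp =>
    rw [map_mul]
    exact mul_mem hp (Algebra.subset_adjoin (Or.inl ⟨i, rfl⟩))

theorem pderiv_comm {ℓ : ℕ} (i k : Fin ℓ) (x : MvPolynomial (Fin ℓ) ℂ) :
    MvPolynomial.pderiv i (MvPolynomial.pderiv k x) =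
      MvPolynomial.pderiv k (MvPolynomial.pderiv i x) := by
  have h : ⁅(MvPolynomial.pderiv i : Derivation ℂ (MvPolynomial (Fin ℓ) ℂ) (MvPolynomial (Fin ℓ) ℂ)),
      (MvPolynomial.pderiv k : Derivation ℂ (MvPolynomial (Fin ℓ) ℂ) (MvPolynomial (Fin ℓ) ℂ))⁆
      = (0 : Derivation ℂ (MvPolynomial (Fin ℓ) ℂ) (MvPolynomial (Fin ℓ) ℂ)) := by
    apply MvPolynomial.derivation_ext
    intro m
    rw [Derivation.commutator_apply, Derivation.zero_apply, MvPolynomial.pderiv_X,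
      MvPolynomial.pderiv_X]
    simp only [Pi.single_apply]
    split_ifs <;> simp
  have h2 := congrArg (fun D => D x) h
  simp only [Derivation.commutator_apply, Derivation.zero_apply] at h2
  exact sub_eq_zero.mp h2

/-- Polynomial differential operators in `ℓ` variables. -/
noncomputable def polyGeo (ℓ : ℕ) :
    Geo (Polynomial.derivative' (R := ℂ)) ℓ (MvPolynomial (Fin ℓ) ℂ) where
  e c := Polynomial.aeval (MvPolynomial.X c)
  D c := MvPolynomial.pderiv c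
  D_e i c f := by
    rw [Derivation.comp_aeval_eq, MvPolynomial.pderiv_X]
    split_ifs with h
    · subst h
      rw [Pi.single_eq_same, smul_eq_mul, mul_one]; rfl
    · rw [Pi.single_eq_of_ne (Ne.symm h), smul_zero]
  D_comm i k x := pderiv_comm i k x
  A := Weyl ℓ
  mem_mul := Weyl_mul ℓ
  mem_D c := Algebra.subset_adjoin (Or.inr ⟨c, rfl⟩)

/-- The evaluation at the root `ω` of `X² - sX + p`. -/
noncomputable def polySym : SymSq (polyGeo 2) (Polynomial.X) where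
  ht := Polynomial.derivative_X
  ev := Polynomial.aeval ⟨0, 1⟩
  ev_t := Polynomial.aeval_X _
  hU Z f := by
    rw [Derivation.comp_aeval_eq, smul_eq_mul]; rfl

section K

open MvPolynomial

theorem coeff_X_pderiv (i : Fin 2) (w : MvPolynomial (Fin 2) ℂ) (m : Fin 2 →₀ ℕ) :
    coeff m (X i * pderiv i w) = (m i : ℂ) * coeff m w := by
  rw [coeff_X_mul']
  split_ifs with h
  · have hmi : m i ≠ 0 := Finsupp.mem_support_iff.mp h
    have e : m - Finsupp.single i 1 + Finsupp.single i 1 = m :=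
      tsub_add_cancel_of_le (Finsupp.single_le_iff.mpr (Nat.one_le_iff_ne_zero.mpr hmi))
    rw [coeff_pderiv, e, mul_comm]
    congr 1
    rw [Finsupp.tsub_apply, Finsupp.single_eq_same]
    have : 1 ≤ m i := Nat.one_le_iff_ne_zero.mpr hmi
    push_cast [Nat.cast_sub this]
    ring
  · have hmi : m i = 0 := Finsupp.notMem_support_iff.mp h
    rw [hmi]; simp

theorem polyK (w : MvPolynomial (Fin 2) ℂ) (j : ℕ)
    (h0 : Core.L0 ((polyGeo 2).D 0) ((polyGeo 2).D 1) ((polyGeo 2).e 0 Polynomial.X) w = 0)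
    (h1 : Core.L1 ((polyGeo 2).D 0) ((polyGeo 2).D 1) ((polyGeo 2).e 0 Polynomial.X)
      ((polyGeo 2).e 1 Polynomial.X) w = (2 * j + 1) * w) : w = 0 := by
  have e0 : (polyGeo 2).e 0 Polynomial.X = (X 0 : MvPolynomial (Fin 2) ℂ) := Polynomial.aeval_X _
  have e1 : (polyGeo 2).e 1 Polynomial.X = (X 1 : MvPolynomial (Fin 2) ℂ) := Polynomial.aeval_X _
  rw [e0] at h0
  rw [e0, e1] at h1
  simp only [Core.L0, Core.L1, Derivation.add_apply, Derivation.smul_apply, smul_eq_mul] at h0 h1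
  change 2 * pderiv 0 w + X 0 * pderiv 1 w = 0 at h0
  change X 0 * pderiv 0 w + 2 * X 1 * pderiv 1 w = ((2 : MvPolynomial (Fin 2) ℂ) * (j : MvPolynomial (Fin 2) ℂ) + 1) * w at h1
  by_contra hw
  obtain ⟨m, hm, hmax⟩ := Finset.exists_max_image w.support (fun m => m 1)
    (MvPolynomial.support_nonempty.mpr hw)
  have hm0 : coeff m w ≠ 0 := mem_support_iff.mp hm
  have hwt : (m 0 : ℂ) + 2 * m 1 = 2 * j + 1 := by
    have := congrArg (coeff m) h1
    have e2 : (2 * X 1 * pderiv 1 w : MvPolynomial (Fin 2) ℂ) = C 2 * (X 1 * pderiv 1 w) := by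
      rw [map_ofNat]; ring
    have e3 : (((2 : MvPolynomial (Fin 2) ℂ) * (j : MvPolynomial (Fin 2) ℂ) + 1) * w : MvPolynomial (Fin 2) ℂ) = C (2 * (j : ℂ) + 1) * w := by
      rw [map_add, map_mul, map_ofNat, map_natCast, map_one]
    rw [e2, e3, coeff_add, coeff_X_pderiv, coeff_C_mul, coeff_X_pderiv, coeff_C_mul] at this
    apply mul_right_cancel₀ hm0
    linear_combination this
  have hwt' : m 0 + 2 * m 1 = 2 * j + 1 := by exact_mod_cast hwt
  have hm0pos : 1 ≤ m 0 := by omega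
  set m' := m - Finsupp.single 0 1 with hm'
  have e4 : m' + Finsupp.single 0 1 = m :=
    tsub_add_cancel_of_le (Finsupp.single_le_iff.mpr hm0pos)
  have hm'0 : m' 0 + 1 = m 0 := by rw [← e4]; simp
  have hm'1 : m' 1 = m 1 := by rw [← e4]; simp
  have h2 := congrArg (coeff m') h0
  have e5 : (2 * pderiv 0 w : MvPolynomial (Fin 2) ℂ) = C 2 * pderiv 0 w := by rw [map_ofNat]
  rw [e5, coeff_add, coeff_C_mul, coeff_pderiv, e4, coeff_X_mul', coeff_zero] at h2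
  have h3 : (if (0 : Fin 2) ∈ m'.support then coeff (m' - Finsupp.single 0 1) (pderiv 1 w) else 0)
      = 0 := by
    split_ifs with h
    · rw [coeff_pderiv]
      have : coeff (m' - Finsupp.single 0 1 + Finsupp.single 1 1) w = 0 := by
        by_contra hne
        have := hmax _ (mem_support_iff.mpr hne)
        simp [hm'1] at this
      rw [this, zero_mul]
    · rfl
  rw [h3, add_zero] at h2
  have h4 : (((m' 0 : ℕ) : ℂ) + 1) ≠ 0 := by exact_mod_cast Nat.succ_ne_zero (m' 0)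
  exact (mul_ne_zero two_ne_zero (mul_ne_zero hm0 h4)) h2

end K

/-- The enveloping algebra `U(W₋₁)`. -/
def UWm : Type := UniversalEnvelopingAlgebra ℂ Wm

noncomputable instance : Ring UWm := (inferInstance : Ring (UniversalEnvelopingAlgebra ℂ Wm))
noncomputable instance : Algebra ℂ UWm :=
  (inferInstance : Algebra ℂ (UniversalEnvelopingAlgebra ℂ Wm))

/-- The element `f∂` of `U(W₋₁)`. -/
noncomputable def UWm.ι (f : Polynomial ℂ) : UWm := UniversalEnvelopingAlgebra.ι ℂ (Wm.of f)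

/-- The Weyl algebra `A_ℓ` as a type. -/
def WA (ℓ : ℕ) : Type := Weyl ℓ

noncomputable instance (ℓ : ℕ) : Ring (WA ℓ) := (inferInstance : Ring (Weyl ℓ))
noncomputable instance (ℓ : ℕ) : Algebra ℂ (WA ℓ) := (inferInstance : Algebra ℂ (Weyl ℓ))

/-- The element `f(t_c)` of `A_ℓ`. -/
noncomputable def WA.mul {ℓ : ℕ} (c : Fin ℓ) (f : Polynomial ℂ) : WA ℓ :=
  ⟨Algebra.lmul ℂ _ (Polynomial.aeval (MvPolynomial.X c) f), Weyl_mul ℓ _⟩

theorem Weyl_d {ℓ : ℕ} (c : Fin ℓ) :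
    ((MvPolynomial.pderiv c : Derivation ℂ _ _) :
          MvPolynomial (Fin ℓ) ℂ →ₗ[ℂ] MvPolynomial (Fin ℓ) ℂ) ∈ Weyl ℓ :=
  Algebra.subset_adjoin (Or.inr ⟨c, rfl⟩)

/-- The element `∂_c` of `A_ℓ`. -/
noncomputable def WA.d {ℓ : ℕ} (c : Fin ℓ) : WA ℓ :=
  ⟨((MvPolynomial.pderiv c : Derivation ℂ _ _) :
          MvPolynomial (Fin ℓ) ℂ →ₗ[ℂ] MvPolynomial (Fin ℓ) ℂ), Weyl_d c⟩

/-- The algebra `A_ℓ ⊗ U(g_𝐧)`. -/
def Tgt {ℓ : ℕ} (n : Fin ℓ → ℕ) : Type := WA ℓ ⊗[ℂ] U n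

noncomputable instance {ℓ : ℕ} (n : Fin ℓ → ℕ) : Ring (Tgt n) :=
  (inferInstance : Ring (WA ℓ ⊗[ℂ] U n))
noncomputable instance {ℓ : ℕ} (n : Fin ℓ → ℕ) : Algebra ℂ (Tgt n) :=
  (inferInstance : Algebra ℂ (WA ℓ ⊗[ℂ] U n))

/-- The element `a ⊗ u` of `A_ℓ ⊗ U(g_𝐧)`. -/
noncomputable def Tgt.mk {ℓ : ℕ} {n : Fin ℓ → ℕ} (a : WA ℓ) (u : U n) : Tgt n := a ⊗ₜ[ℂ] u

/-- `Ψ` is the homomorphism `Ψ_𝐧`:
`Ψ(f∂) = ∑_c (f(t_c)∂_c ⊗ 1 + ∑_{i < n_c} f^{(i+1)}(t_c)/(i+1)! ⊗ v_i)` for all `f`. -/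
def IsPsi {ℓ : ℕ} (n : Fin ℓ → ℕ) (Ψ : UWm →ₐ[ℂ] Tgt n) : Prop :=
  ∀ f : Polynomial ℂ, Ψ (UWm.ι f) =
    ∑ c, (Tgt.mk (WA.mul c f * WA.d c) 1 + ∑ i ∈ Finset.range (n c),
      Tgt.mk (WA.mul c ((((i + 1).factorial : ℂ)⁻¹) • (Polynomial.derivative^[i + 1] f))) (vU n c i))

/-- The homomorphism `U(W₋₁) → A₂` given by the action on the symmetric square of the line. -/
noncomputable def phiPoly : UWm →ₐ[ℂ] WA 2 := polySym.phi

/-- The homomorphism `Ψ_𝐧 : U(W₋₁) → A_ℓ ⊗ U(g_𝐧)`. -/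
noncomputable def PsiPoly {ℓ : ℕ} (n : Fin ℓ → ℕ) : UWm →ₐ[ℂ] Tgt n := (polyGeo ℓ).Psi n

theorem isPsi_PsiPoly {ℓ : ℕ} (n : Fin ℓ → ℕ) : IsPsi n (PsiPoly n) := by
  intro f
  refine ((polyGeo ℓ).Psi_ι n (VF.of _ f)).trans ?_
  refine Finset.sum_congr rfl fun c _ => ?_
  simp only [Geo.psiC, psi1, Geo.J_apply, Geo.PP, Geo.VV, Algebra.TensorProduct.tmul_mul_tmul,
    one_mul, mul_one, VF.coef_of]
  rfl

/-- There is a homomorphism `U(W₋₁) → A₂` which does not factor through any `Ψ_𝐧` (for any number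
`ℓ` of variables). -/
theorem poly_main {ℓ : ℕ} (n : Fin ℓ → ℕ) (ψ : Tgt n →+* WA 2) :
    phiPoly.toRingHom ≠ ψ.comp (PsiPoly n).toRingHom := by
  intro h
  refine no_factor polySym ?_ ?_ polyK (polyGeo ℓ) n ψ h
  · refine Algebra.adjoin_le ?_
    rintro _ (⟨i, rfl⟩ | ⟨i, rfl⟩)
    · exact Algebra.subset_adjoin (Or.inl ⟨_, rfl⟩)
    · fin_cases i
      · exact Algebra.subset_adjoin (Or.inr (Or.inl rfl))
      · exact Algebra.subset_adjoin (Or.inr (Or.inr rfl))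
  · have e0 : (polyGeo 2).e 0 Polynomial.X = (MvPolynomial.X 0 : MvPolynomial (Fin 2) ℂ) :=
      Polynomial.aeval_X _
    have e1 : (polyGeo 2).e 1 Polynomial.X = (MvPolynomial.X 1 : MvPolynomial (Fin 2) ℂ) :=
      Polynomial.aeval_X _
    rw [e0, e1]
    intro h
    have h2 := congrArg (MvPolynomial.eval ![(1 : ℂ), 0]) h
    simp at h2

end Pool.Agent.Q113.WF
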